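import Pool.Agent.Helper18.TR.St

/-! Module FM: main term of the fundamental lemma. -/

namespace Pool.Agent.Helper18.TR

open Finset Pool.Agent.Helper18.ED

lemma fm_exp (x : ℝ) (h0 : 0 ≤ x) (h1 : x ≤ 1 / 2) : Real.exp (-(2 * x)) ≤ 1 - x := by
  have hpos : 0 < 1 - x := by linarith
  have h2 := Real.one_sub_inv_le_log_of_pos hpos
  rw [← Real.le_log_iff_exp_le hpos]
  refine le_trans ?_ h2
  have h3 : (1 - x)⁻¹ ≤ 1 + 2 * x := by
    rw [inv_le_comm₀ hpos (by linarith), inv_eq_one_div, div_le_iff₀ (by linarith)]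
    nlinarith
  linarith

lemma fm_idx (w p : ℕ) : idx w p ∈ range (w + 1) := by
  rw [Finset.mem_range]
  unfold idx
  have h1 := Nat.log_le_self 2 (Nat.log p w)
  have h2 := Nat.log_le_self p w
  omega

lemma fm_disj (w b : ℕ) (Q : Finset ℕ) : Disjoint (fam0 w b Q) (fam1 w b Q) := by
  rw [Finset.disjoint_left]
  intro T h0 h1
  simp only [fam0, fam1, Finset.mem_filter] at h0 h1
  obtain ⟨_, i, hi, hc, _⟩ := h1
  have := h0.2 i hi
  omega

/-- decay of the exponential series -/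
lemma fm_decay (L : ℝ) (hL : 0 ≤ L) (b : ℕ) (hb : 2 * L ≤ b) : ∀ i : ℕ,
    L ^ (b + 2 * i + 1) / ((b + 2 * i + 1).factorial : ℝ) ≤
      L ^ (b + 1) / ((b + 1).factorial : ℝ) * (1 / 2) ^ i
  | 0 => by simp
  | i + 1 => by
    have ih := fm_decay L hL b hb i
    have e1 : b + 2 * (i + 1) + 1 = (b + 2 * i + 1) + 1 + 1 := by ring
    rw [e1, Nat.factorial_succ, Nat.factorial_succ, pow_succ, pow_succ, pow_succ (1 / 2 : ℝ)]
    have hf : (0 : ℝ) < ((b + 2 * i + 1).factorial : ℝ) := by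
      exact_mod_cast Nat.factorial_pos _
    have h1 : L ^ (b + 2 * i + 1) * L * L /
        (((b + 2 * i + 1 + 1 + 1) * ((b + 2 * i + 1 + 1) * (b + 2 * i + 1).factorial) : ℕ) : ℝ) =
        (L ^ (b + 2 * i + 1) / ((b + 2 * i + 1).factorial : ℝ)) *
          (L * L / (((b : ℝ) + 2 * i + 1 + 1 + 1) * ((b : ℝ) + 2 * i + 1 + 1))) := by
      push_cast
      field_simp
    rw [h1]
    have h2 : L * L / (((b : ℝ) + 2 * i + 1 + 1 + 1) * ((b : ℝ) + 2 * i + 1 + 1)) ≤ 1 / 2 := by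
      have hi : (0 : ℝ) ≤ i := Nat.cast_nonneg i
      have hbb : (0 : ℝ) ≤ b := Nat.cast_nonneg b
      rw [div_le_div_iff₀ (by positivity) (by norm_num)]
      have h3 : L * L ≤ (b : ℝ) * b / 4 := by nlinarith
      nlinarith [mul_nonneg hbb hi, mul_nonneg hi hi]
    calc (L ^ (b + 2 * i + 1) / ((b + 2 * i + 1).factorial : ℝ)) *
          (L * L / (((b : ℝ) + 2 * i + 1 + 1 + 1) * ((b : ℝ) + 2 * i + 1 + 1)))
        ≤ (L ^ (b + 1) / ((b + 1).factorial : ℝ) * (1 / 2) ^ i) * (1 / 2) :=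
          mul_le_mul ih h2 (by positivity) (by positivity)
      _ = _ := by ring

lemma fm_geo (n : ℕ) : ∑ i ∈ range n, (1 / 2 : ℝ) ^ i ≤ 2 := by
  have h : ∀ n : ℕ, ∑ i ∈ range n, (1 / 2 : ℝ) ^ i = 2 - 2 * (1 / 2) ^ n := by
    intro n
    induction n with
    | zero => simp
    | succ n ih => rw [Finset.sum_range_succ, ih, pow_succ]; ring
  rw [h]
  have : (0 : ℝ) < (1 / 2) ^ n := by positivity
  linarith

/-- abstract comparison of products -/
lemma fm_prod (I : Finset ℕ) (G Y E δ : ℕ → ℝ) (η : ℝ)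
    (hG : ∀ i ∈ I, 0 < G i) (hδ : ∀ i ∈ I, 0 ≤ δ i) (hE : ∀ i ∈ I, E i ≤ δ i * G i)
    (hY0 : ∀ i ∈ I, G i ≤ Y i) (hY1 : ∀ i ∈ I, Y i ≤ G i + E i)
    (hη : ∑ i ∈ I, δ i ≤ η) :
    ∏ i ∈ I, Y i ≤ Real.exp η * ∏ i ∈ I, G i ∧
    (1 - η * Real.exp η) * ∏ i ∈ I, G i ≤
      ∏ i ∈ I, Y i - ∑ i ∈ I, E i * ∏ j ∈ I.erase i, Y j := by
  have hYG : ∀ i ∈ I, Y i ≤ G i * Real.exp (δ i) := by
    intro i hi
    have h1 : 1 + δ i ≤ Real.exp (δ i) := by
      have := Real.add_one_le_exp (δ i); linarith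
    have h2 : Y i ≤ G i * (1 + δ i) := by
      have := hY1 i hi
      have := hE i hi
      linarith
    exact h2.trans (mul_le_mul_of_nonneg_left h1 (hG i hi).le)
  have hY00 : ∀ i ∈ I, 0 ≤ Y i := fun i hi => (hG i hi).le.trans (hY0 i hi)
  have hGpos : 0 < ∏ i ∈ I, G i := Finset.prod_pos hG
  have hη0 : 0 ≤ η := (Finset.sum_nonneg hδ).trans hη
  have hsub : ∀ J ⊆ I, ∏ i ∈ J, Y i ≤ Real.exp η * ∏ i ∈ J, G i := by
    intro J hJ
    calc ∏ i ∈ J, Y i ≤ ∏ i ∈ J, (G i * Real.exp (δ i)) :=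
          Finset.prod_le_prod (fun i hi => hY00 i (hJ hi)) (fun i hi => hYG i (hJ hi))
      _ = (∏ i ∈ J, G i) * Real.exp (∑ i ∈ J, δ i) := by
          rw [Finset.prod_mul_distrib, Real.exp_sum]
      _ ≤ (∏ i ∈ J, G i) * Real.exp η := by
          apply mul_le_mul_of_nonneg_left _
            (Finset.prod_nonneg (fun i hi => (hG i (hJ hi)).le))
          apply Real.exp_le_exp.mpr
          exact (Finset.sum_le_sum_of_subset_of_nonneg hJ (fun i hi _ => hδ i hi)).trans hη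
      _ = _ := mul_comm _ _
  refine ⟨hsub I subset_rfl, ?_⟩
  have h1 : ∏ i ∈ I, G i ≤ ∏ i ∈ I, Y i :=
    Finset.prod_le_prod (fun i hi => (hG i hi).le) hY0
  have h2 : ∑ i ∈ I, E i * ∏ j ∈ I.erase i, Y j ≤
      ∑ i ∈ I, δ i * (Real.exp η * ∏ i ∈ I, G i) := by
    apply Finset.sum_le_sum
    intro i hi
    have h3 := hsub (I.erase i) (Finset.erase_subset i I)
    have h4 : ∏ j ∈ I, G j = G i * ∏ j ∈ I.erase i, G j :=
      (Finset.mul_prod_erase I G hi).symm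
    have h5 : 0 ≤ ∏ j ∈ I.erase i, Y j :=
      Finset.prod_nonneg (fun j hj => hY00 j (Finset.mem_of_mem_erase hj))
    calc E i * ∏ j ∈ I.erase i, Y j ≤ (δ i * G i) * ∏ j ∈ I.erase i, Y j :=
          mul_le_mul_of_nonneg_right (hE i hi) h5
      _ ≤ (δ i * G i) * (Real.exp η * ∏ j ∈ I.erase i, G j) :=
          mul_le_mul_of_nonneg_left h3 (mul_nonneg (hδ i hi) (hG i hi).le)
      _ = δ i * (Real.exp η * ∏ i ∈ I, G i) := by rw [h4]; ring
  rw [← Finset.sum_mul] at h2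
  have h6 : (∑ i ∈ I, δ i) * (Real.exp η * ∏ i ∈ I, G i) ≤ η * (Real.exp η * ∏ i ∈ I, G i) :=
    mul_le_mul_of_nonneg_right hη (by positivity)
  linarith

theorem pf_FLmain (h0 : StFact0) (h1 : StFact1) (hS : StSym) (hE : StEsymm) (hR : StRange) :
    StFLmain := by
  intro κ ε hκ hε
  obtain ⟨C, hC, hCr⟩ := hR
  set L : ℝ := κ * C with hL
  have hL0 : 0 ≤ L := by positivity
  set η : ℝ := min (Real.log (1 + ε)) (ε / (1 + ε)) with hη
  have hη0 : 0 < η := lt_min (Real.log_pos (by linarith)) (by positivity)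
  have hη1 : Real.exp η ≤ 1 + ε := by
    rw [← Real.le_log_iff_exp_le (by linarith)]
    exact min_le_left _ _
  have hη2 : η * Real.exp η ≤ ε := by
    calc η * Real.exp η ≤ (ε / (1 + ε)) * (1 + ε) :=
          mul_le_mul (min_le_right _ _) hη1 (Real.exp_pos _).le (by positivity)
      _ = ε := by field_simp
  -- choice of `b`
  obtain ⟨b, hbe, hb2, hbη⟩ : ∃ b : ℕ, Even b ∧ 2 * L ≤ b ∧
      Real.exp (2 * L) * (L ^ (b + 1) / ((b + 1).factorial : ℝ)) * 2 ≤ η := by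
    have ht := FloorSemiring.tendsto_pow_div_factorial_atTop L
    have hpos : 0 < η / (2 * Real.exp (2 * L)) := by positivity
    have hev := (ht.eventually_lt_const hpos)
    rw [Filter.eventually_atTop] at hev
    obtain ⟨n, hn⟩ := hev
    refine ⟨2 * (n + ⌈L⌉₊), even_two_mul _, ?_, ?_⟩
    · push_cast
      have := Nat.le_ceil L
      have : (0 : ℝ) ≤ n := Nat.cast_nonneg n
      linarith
    · have h := hn (2 * (n + ⌈L⌉₊) + 1) (by omega)
      rw [lt_div_iff₀ (by positivity)] at h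
      nlinarith
  refine ⟨b, hbe, ?_⟩
  intro w Q hQ g hg
  have hg1 : ∀ p ∈ Q, 0 ≤ g p ∧ g p ≤ 1 := fun p hp =>
    ⟨(hg p hp).1, (hg p hp).2.2.trans (by norm_num)⟩
  have hsubQ : ∀ i, ∀ p ∈ Qi w Q i, p ∈ Q := fun i p hp => (Finset.mem_filter.mp hp).1
  set G : ℕ → ℝ := fun i => ∏ p ∈ Qi w Q i, (1 - g p) with hG
  set Y : ℕ → ℝ := fun i => Yy (b + 2 * i) (Qi w Q i) g with hY
  set E : ℕ → ℝ := fun i => ee (b + 2 * i + 1) (Qi w Q i) g with hEd
  set δ : ℕ → ℝ := fun i => Real.exp (2 * L) *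
    (L ^ (b + 2 * i + 1) / ((b + 2 * i + 1).factorial : ℝ)) with hδ
  have hGQ : ∏ p ∈ Q, (1 - g p) = ∏ i ∈ range (w + 1), G i := by
    rw [← Finset.prod_fiberwise_of_maps_to (t := range (w + 1)) (g := idx w)
      (fun p _ => fm_idx w p)]
    rfl
  have hai : ∀ i, ∑ p ∈ Qi w Q i, g p ≤ L := by
    intro i
    calc ∑ p ∈ Qi w Q i, g p ≤ ∑ p ∈ Qi w Q i, κ * (1 / (p : ℝ)) := by
          apply Finset.sum_le_sum
          intro p hp
          rw [mul_one_div]
          exact (hg p (hsubQ i p hp)).2.1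
      _ = κ * ∑ p ∈ Qi w Q i, 1 / (p : ℝ) := by rw [Finset.mul_sum]
      _ ≤ κ * C := mul_le_mul_of_nonneg_left (hCr w Q hQ i) hκ.le
  have hGlow : ∀ i, Real.exp (-(2 * L)) ≤ G i := by
    intro i
    calc Real.exp (-(2 * L)) ≤ Real.exp (∑ p ∈ Qi w Q i, -(2 * g p)) := by
          apply Real.exp_le_exp.mpr
          rw [Finset.sum_neg_distrib, ← Finset.mul_sum]
          have := hai i
          linarith
      _ = ∏ p ∈ Qi w Q i, Real.exp (-(2 * g p)) := Real.exp_sum _ _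
      _ ≤ ∏ p ∈ Qi w Q i, (1 - g p) := by
          apply Finset.prod_le_prod (fun _ _ => (Real.exp_pos _).le)
          intro p hp
          have h := hg p (hsubQ i p hp)
          exact fm_exp _ h.1 h.2.2
  have hGpos : ∀ i, 0 < G i := fun i => lt_of_lt_of_le (Real.exp_pos _) (hGlow i)
  have hδ0 : ∀ i, 0 ≤ δ i := fun i => by positivity
  have hEδ : ∀ i, E i ≤ δ i * G i := by
    intro i
    have h2 := (hE (b + 2 * i + 1) (Qi w Q i) g (fun p hp => (hg p (hsubQ i p hp)).1)).2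
    have h3 : (∑ p ∈ Qi w Q i, g p) ^ (b + 2 * i + 1) ≤ L ^ (b + 2 * i + 1) :=
      pow_le_pow_left₀ (Finset.sum_nonneg (fun p hp => (hg p (hsubQ i p hp)).1)) (hai i) _
    have h4 : E i ≤ L ^ (b + 2 * i + 1) / ((b + 2 * i + 1).factorial : ℝ) :=
      h2.trans (by gcongr)
    have h5 : 1 ≤ Real.exp (2 * L) * G i := by
      calc (1 : ℝ) = Real.exp (2 * L) * Real.exp (-(2 * L)) := by
            rw [← Real.exp_add]; simp
        _ ≤ Real.exp (2 * L) * G i := mul_le_mul_of_nonneg_left (hGlow i) (Real.exp_pos _).le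
    calc E i ≤ L ^ (b + 2 * i + 1) / ((b + 2 * i + 1).factorial : ℝ) := h4
      _ ≤ (L ^ (b + 2 * i + 1) / ((b + 2 * i + 1).factorial : ℝ)) * (Real.exp (2 * L) * G i) :=
          le_mul_of_one_le_right (by positivity) h5
      _ = δ i * G i := by simp only [hδ]; ring
  have hsum : ∑ i ∈ range (w + 1), δ i ≤ η := by
    calc ∑ i ∈ range (w + 1), δ i ≤ ∑ i ∈ range (w + 1), Real.exp (2 * L) *
          (L ^ (b + 1) / ((b + 1).factorial : ℝ) * (1 / 2) ^ i) := by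
          apply Finset.sum_le_sum
          intro i _
          exact mul_le_mul_of_nonneg_left (fm_decay L hL0 b hb2 i) (Real.exp_pos _).le
      _ = Real.exp (2 * L) * (L ^ (b + 1) / ((b + 1).factorial : ℝ)) *
          ∑ i ∈ range (w + 1), (1 / 2 : ℝ) ^ i := by
          rw [Finset.mul_sum]
          exact Finset.sum_congr rfl (fun _ _ => by ring)
      _ ≤ Real.exp (2 * L) * (L ^ (b + 1) / ((b + 1).factorial : ℝ)) * 2 :=
          mul_le_mul_of_nonneg_left (fm_geo _) (by positivity)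
      _ ≤ η := hbη
  have hbi : ∀ i, Even (b + 2 * i) := fun i => hbe.add (even_two_mul i)
  have hY0 : ∀ i, G i ≤ Y i := fun i =>
    (hS (b + 2 * i) (Qi w Q i) g (hbi i) (fun p hp => hg1 p (hsubQ i p hp))).1
  have hY1 : ∀ i, Y i ≤ G i + E i := fun i =>
    (hS (b + 2 * i) (Qi w Q i) g (hbi i) (fun p hp => hg1 p (hsubQ i p hp))).2
  have key := fm_prod (range (w + 1)) G Y E δ η (fun i _ => hGpos i) (fun i _ => hδ0 i)
    (fun i _ => hEδ i) (fun i _ => hY0 i) (fun i _ => hY1 i) hsum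
  have hGp : 0 ≤ ∏ i ∈ range (w + 1), G i := Finset.prod_nonneg (fun i _ => (hGpos i).le)
  have f0 := h0 w b Q g
  have f1 := h1 w b Q g hbe
  constructor
  · rw [f0, hGQ]
    exact key.1.trans (mul_le_mul_of_nonneg_right hη1 hGp)
  · rw [Finset.sum_union (fm_disj w b Q), f0, f1, hGQ]
    have h2 : (1 - ε) * ∏ i ∈ range (w + 1), G i ≤
        (1 - η * Real.exp η) * ∏ i ∈ range (w + 1), G i :=
      mul_le_mul_of_nonneg_right (by linarith) hGp
    refine h2.trans (key.2.trans (le_of_eq ?_))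
    rw [sub_eq_add_neg]

end Pool.Agent.Helper18.TR
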