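import Pool.Agent.Helper18.TR.St

/-! Module FS: factorization over the ranges. -/

namespace Pool.Agent.Helper18.TR

open Finset Pool.Agent.Helper18.ED

lemma fs_idx (w p : ℕ) : idx w p ∈ range (w + 1) := by
  rw [Finset.mem_range]
  unfold idx
  have h1 := Nat.log_le_self 2 (Nat.log p w)
  have h2 := Nat.log_le_self p w
  omega

lemma fs_insert (w p i : ℕ) (T : Finset ℕ) :
    Qi w (insert p T) i = if idx w p = i then insert p (Qi w T i) else Qi w T i := by
  unfold Qi
  rw [Finset.filter_insert]

lemma fs_gen (w n : ℕ) (Q : Finset ℕ) : (∀ p ∈ Q, idx w p ∈ range n) →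
    ∀ F : ℕ → Finset ℕ → ℝ,
    ∑ T ∈ Q.powerset, ∏ i ∈ range n, F i (Qi w T i) =
      ∏ i ∈ range n, ∑ T ∈ (Qi w Q i).powerset, F i T := by
  induction Q using Finset.induction_on with
  | empty =>
    intro _ F
    simp [Qi]
  | insert p Q hp ih =>
    intro hQ F
    have hQ' : ∀ p ∈ Q, idx w p ∈ range n := fun q hq => hQ q (Finset.mem_insert_of_mem hq)
    have hpn : idx w p ∈ range n := hQ p (Finset.mem_insert_self _ _)
    set k := idx w p with hk
    rw [Finset.sum_powerset_insert hp]
    have h1 : ∀ T ∈ Q.powerset, ∏ i ∈ range n, F i (Qi w (insert p T) i) =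
        ∏ i ∈ range n, (fun i T => if i = k then F i (insert p T) else F i T) i (Qi w T i) := by
      intro T _
      apply Finset.prod_congr rfl
      intro i _
      rw [fs_insert, ← hk]
      by_cases hik : i = k
      · subst hik
        simp
      · have : ¬ k = i := fun h => hik h.symm
        simp [hik, this]
    rw [Finset.sum_congr rfl h1, ih hQ' F,
      ih hQ' (fun i T => if i = k then F i (insert p T) else F i T)]
    rw [← Finset.mul_prod_erase _ _ hpn, ← Finset.mul_prod_erase _ _ hpn,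
      ← Finset.mul_prod_erase _ _ hpn]
    have h2 : ∏ x ∈ (range n).erase k, ∑ T ∈ (Qi w Q x).powerset,
        (fun i T => if i = k then F i (insert p T) else F i T) x T =
        ∏ x ∈ (range n).erase k, ∑ T ∈ (Qi w Q x).powerset, F x T := by
      apply Finset.prod_congr rfl
      intro x hx
      have : x ≠ k := Finset.ne_of_mem_erase hx
      simp [this]
    have h3 : ∏ x ∈ (range n).erase k, ∑ T ∈ (Qi w (insert p Q) x).powerset, F x T =
        ∏ x ∈ (range n).erase k, ∑ T ∈ (Qi w Q x).powerset, F x T := by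
      apply Finset.prod_congr rfl
      intro x hx
      have : ¬ k = x := fun h => Finset.ne_of_mem_erase hx h.symm
      rw [fs_insert, ← hk, if_neg this]
    have h4 : Qi w (insert p Q) k = insert p (Qi w Q k) := by
      rw [fs_insert, ← hk, if_pos rfl]
    have h5 : p ∉ Qi w Q k := fun h => hp (Finset.mem_filter.mp h).1
    rw [h2, h3, h4, Finset.sum_powerset_insert h5, add_mul]
    congr 1
    simp

/-- the summand is a product over the ranges -/
lemma fs_val (w : ℕ) (g : ℕ → ℝ) (T : Finset ℕ) :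
    ∏ i ∈ range (w + 1), ((-1 : ℝ) ^ (Qi w T i).card * ∏ p ∈ Qi w T i, g p) =
      (-1 : ℝ) ^ T.card * ∏ p ∈ T, g p := by
  rw [Finset.prod_mul_distrib, Finset.prod_pow_eq_pow_sum]
  congr 1
  · congr 1
    exact (Finset.card_eq_sum_card_fiberwise (fun p _ => fs_idx w p)).symm
  · exact Finset.prod_fiberwise_of_maps_to (fun p _ => fs_idx w p) g

theorem pf_Fact0 : StFact0 := by
  intro w b Q g
  unfold fam0
  rw [Finset.sum_filter]
  have h1 : ∀ T ∈ Q.powerset,
      (if ∀ i ∈ range (w + 1), (Qi w T i).card ≤ b + 2 * i then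
        (-1 : ℝ) ^ T.card * ∏ p ∈ T, g p else 0) =
      ∏ i ∈ range (w + 1), (fun i (T : Finset ℕ) => if T.card ≤ b + 2 * i then
        (-1 : ℝ) ^ T.card * ∏ p ∈ T, g p else 0) i (Qi w T i) := by
    intro T _
    simp only []
    rw [Finset.prod_ite_zero, fs_val]
  refine (Finset.sum_congr rfl (fun T hT => by convert h1 T hT)).trans ?_
  rw [fs_gen w (w + 1) Q (fun p _ => fs_idx w p)
    (fun i (T : Finset ℕ) => if T.card ≤ b + 2 * i then (-1 : ℝ) ^ T.card * ∏ p ∈ T, g p else 0)]
  apply Finset.prod_congr rfl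
  intro i _
  unfold Yy
  rw [Finset.sum_filter]

theorem pf_Fact1 : StFact1 := by
  intro w b Q g hb
  unfold fam1
  rw [Finset.sum_filter]
  set F : ℕ → ℕ → Finset ℕ → ℝ := fun i₀ i T =>
    if (if i = i₀ then T.card = b + 2 * i + 1 else T.card ≤ b + 2 * i) then
      (-1 : ℝ) ^ T.card * ∏ p ∈ T, g p else 0 with hF
  have h1 : ∀ T ∈ Q.powerset,
      (if ∃ i ∈ range (w + 1), (Qi w T i).card = b + 2 * i + 1 ∧
        ∀ j ∈ range (w + 1), j ≠ i → (Qi w T j).card ≤ b + 2 * j then
        (-1 : ℝ) ^ T.card * ∏ p ∈ T, g p else 0) =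
      ∑ i₀ ∈ range (w + 1), ∏ i ∈ range (w + 1), F i₀ i (Qi w T i) := by
    intro T _
    have h2 : ∀ i₀ ∈ range (w + 1), ∏ i ∈ range (w + 1), F i₀ i (Qi w T i) =
        if ((Qi w T i₀).card = b + 2 * i₀ + 1 ∧
          ∀ j ∈ range (w + 1), j ≠ i₀ → (Qi w T j).card ≤ b + 2 * j) then
          (-1 : ℝ) ^ T.card * ∏ p ∈ T, g p else 0 := by
      intro i₀ hi₀
      simp only [hF]
      rw [Finset.prod_ite_zero, fs_val]
      congr 1
      apply propext
      constructor
      · intro h
        refine ⟨by simpa using h i₀ hi₀, fun j hj hne => by simpa [hne] using h j hj⟩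
      · rintro ⟨h3, h4⟩ i hi
        by_cases hii : i = i₀
        · subst hii; simpa using h3
        · simpa [hii] using h4 i hi hii
    rw [Finset.sum_congr rfl h2]
    by_cases hex : ∃ i ∈ range (w + 1), (Qi w T i).card = b + 2 * i + 1 ∧
        ∀ j ∈ range (w + 1), j ≠ i → (Qi w T j).card ≤ b + 2 * j
    · rw [if_pos hex]
      obtain ⟨i, hi, h3, h4⟩ := hex
      rw [Finset.sum_eq_single i]
      · rw [if_pos ⟨h3, h4⟩]
      · intro j hj hne
        rw [if_neg]
        rintro ⟨h5, _⟩
        have := h4 j hj hne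
        omega
      · intro h; exact absurd hi h
    · rw [if_neg hex]
      symm
      apply Finset.sum_eq_zero
      intro i hi
      rw [if_neg]
      intro h
      exact hex ⟨i, hi, h.1, h.2⟩
  refine (Finset.sum_congr rfl (fun T hT => by convert h1 T hT)).trans ?_
  rw [Finset.sum_comm]
  rw [← Finset.sum_neg_distrib]
  apply Finset.sum_congr rfl
  intro i₀ hi₀
  rw [fs_gen w (w + 1) Q (fun p _ => fs_idx w p) (F i₀), ← Finset.mul_prod_erase _ _ hi₀]
  rw [← neg_mul]
  congr 1
  · simp only [hF, if_true]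
    rw [← Finset.sum_filter]
    unfold ee
    rw [Finset.powersetCard_eq_filter, ← Finset.sum_neg_distrib]
    apply Finset.sum_congr rfl
    intro T hT
    rw [Finset.mem_filter] at hT
    rw [hT.2]
    have : (-1 : ℝ) ^ (b + 2 * i₀ + 1) = -1 := by
      apply Odd.neg_one_pow
      exact (hb.add (even_two_mul i₀)).add_one
    rw [this]
    ring
  · apply Finset.prod_congr rfl
    intro j hj
    have hne : j ≠ i₀ := Finset.ne_of_mem_erase hj
    simp only [hF, if_neg hne]
    unfold Yy
    rw [Finset.sum_filter]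

end Pool.Agent.Helper18.TR
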