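import Pool.Agent.Helper18.TR.St
import Pool.Agent.Helper18.ED.GD

/-! Bounded correlation sums: almost all differences `W d + b` are good. -/

namespace Pool.Agent.Helper18.TR

open Finset Pool.Agent.Helper18.ED

theorem V_pos (W w : ℕ) : 0 < V W w := by
  unfold V
  refine Finset.prod_pos fun p hp => ?_
  have hp2 : p.Prime := (mem_filter.1 hp).2.1
  have h2 : (2 : ℝ) ≤ p := by exact_mod_cast hp2.two_le
  have : 1 / (p : ℝ) ≤ 1 / 2 := one_div_le_one_div_of_le (by norm_num) h2
  linarith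

theorem nu_nonneg (W b w : ℕ) (d : ℤ) : 0 ≤ nu W b w d := by
  unfold nu
  split_ifs
  · exact (one_div_pos.2 (V_pos W w)).le
  · exact le_rfl

/-- the bad set of differences `m` -/
def bad (h J : ℕ) (C : ℤ) (m : ℕ) : Set ℕ := {n | ∃ a c, a ≤ c ∧ c ≤ J ∧
    2 * C < |∑ j ∈ Ico a c, (-1 : ℤ) ^ (ArithmeticFunction.cardFactors (n + j * m)) *
      (-1 : ℤ) ^ (ArithmeticFunction.cardFactors (n + (j + h) * m))|}

/-- the bad windows -/
def badW (h J : ℕ) (C : ℤ) (x : Fin (J + h + 1) → ℤˣ) : Prop := ∃ a b, a ≤ b ∧ b ≤ J ∧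
    2 * C < |∑ j ∈ Ico a b, gdx x j * gdx x (j + h)|

theorem mem_bad (h J : ℕ) (C : ℤ) (m n : ℕ) :
    n ∈ bad h J C m ↔ badW h J C (ED.W lam m (J + h + 1) n) := by
  simp only [bad, badW, Set.mem_ofPred_eq]
  refine exists_congr fun a => exists_congr fun b => and_congr_right fun hab =>
    and_congr_right fun hbJ => ?_
  have : ∑ j ∈ Ico a b, (-1 : ℤ) ^ (ArithmeticFunction.cardFactors (n + j * m)) *
    (-1 : ℤ) ^ (ArithmeticFunction.cardFactors (n + (j + h) * m)) =
    ∑ j ∈ Ico a b, gdx (ED.W lam m (J + h + 1) n) j * gdx (ED.W lam m (J + h + 1) n) (j + h) := by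
    refine Finset.sum_congr rfl fun j hj => ?_
    rw [mem_Ico] at hj
    have h1 : j < J + h + 1 := by omega
    have h2 : j + h < J + h + 1 := by omega
    simp only [gdx, h1, h2, dif_pos, ED.W, lam_coe]
    rw [mul_comm m j, mul_comm m (j + h)]
  rw [this]

open Classical in
theorem P_bad (hPart : StPart) (hE : StEmpty) {P : Set ℕ → ℝ} (hP : LogProb P) (h J : ℕ) (C : ℤ)
    (m : ℕ) : P (bad h J C m) =
      ∑ x ∈ univ.filter (badW h J C), P {n | ED.W lam m (J + h + 1) n = x} := by
  have hpart := hPart P hP (fun n => ED.W lam m (J + h + 1) n) Finset.univ (fun _ => mem_univ _)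
    (bad h J C m)
  rw [← hpart, Finset.sum_filter]
  refine Finset.sum_congr rfl fun x _ => ?_
  split_ifs with hx
  · congr 1
    ext n
    simp only [Set.mem_ofPred_eq]
    refine ⟨fun h => h.2, fun h' => ⟨?_, h'⟩⟩
    rw [mem_bad, h']
    exact hx
  · rw [← hE P hP]
    congr 1
    ext n
    simp only [Set.mem_ofPred_eq, Set.mem_empty_iff_false, iff_false]
    rintro ⟨h1, h2⟩
    rw [mem_bad, h2] at h1
    exact hx h1

open Classical in
theorem P_bad_le (hPart : StPart) (hPos : StPos) (hE : StEmpty) (h : ℕ) (C : ℤ)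
    (hS : ∀ N : ℕ, |∑ n ∈ Icc 1 N, (-1 : ℤ) ^ (ArithmeticFunction.cardFactors n) *
      (-1 : ℤ) ^ (ArithmeticFunction.cardFactors (n + h))| ≤ C)
    {P : Set ℕ → ℝ} (hP : LogProb P) (J m : ℕ) :
    P (bad h J C m) ≤ TV P lam m (J + h + 1) 1 := by
  rw [P_bad hPart hE hP]
  unfold TV
  refine (Finset.sum_le_sum (g := fun x => ∑ r ∈ range 1,
    |P {n | ED.W lam m (J + h + 1) n = x ∧ n % 1 = r} -
      P {n | (fun j => lam m * ED.W lam 1 (J + h + 1) n j) = x ∧ (m * n) % 1 = r}|)
      fun x hx => ?_).trans (Finset.sum_le_univ_sum_of_nonneg fun x => by positivity)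
  rw [Finset.sum_range_one]
  have hx : badW h J C x := (mem_filter.1 hx).2
  have h1 : {n | ED.W lam m (J + h + 1) n = x ∧ n % 1 = 0} =
      {n | ED.W lam m (J + h + 1) n = x} := by
    ext n
    simp only [Set.mem_ofPred_eq, Nat.mod_one, and_true]
  have h2 : P {n | (fun j => lam m * ED.W lam 1 (J + h + 1) n j) = x ∧ (m * n) % 1 = 0} = 0 := by
    rw [← hE P hP]
    refine hPos P hP _ _ fun n hn => ?_
    simp only [Set.mem_ofPred_eq, Nat.mod_one, and_true, Set.mem_empty_iff_false, iff_false]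
    intro hxn
    obtain ⟨a, b, hab, hbJ, hlt⟩ := hx
    refine absurd hlt (not_lt.2 ?_)
    have h3 := gd_diff h C hS n a b hn hab
    have h4 : ∑ j ∈ Ico a b, gdx x j * gdx x (j + h) =
        ∑ j ∈ Ico a b, ((lam (n + j) : ℤˣ) : ℤ) * ((lam (n + j + h) : ℤˣ) : ℤ) := by
      refine Finset.sum_congr rfl fun j hj => ?_
      rw [mem_Ico] at hj
      have h1 : j < J + h + 1 := by omega
      have h2 : j + h < J + h + 1 := by omega
      rw [← hxn]
      simp only [gdx, h1, h2, dif_pos, ED.W, one_mul]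
      push_cast
      have h5 := lam_sq m
      rw [← add_assoc n j h]
      linear_combination ((lam (n + j) : ℤˣ) : ℤ) * ((lam (n + j + h) : ℤˣ) : ℤ) * h5
    rw [h4]
    exact h3
  rw [h1, h2, sub_zero]
  exact le_abs_self _

open Classical in
theorem pf_GoodB (hTF : StTransfer) (hSC : StScale) (hPart : StPart) (hPos : StPos)
    (hE : StEmpty) (hProb : StProb) : StGoodB := by
  intro h C hS μ hμ J W₀ ε hW₀ hε
  have hP := hProb μ hμ
  set H := J + h + 1 with hH
  set N : ℝ := (Fintype.card (Fin H → ℤˣ) : ℝ) with hN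
  have hN1 : 1 ≤ N := by
    rw [hN]
    exact_mod_cast Fintype.card_pos
  obtain ⟨w₀, A, D₀, hTF⟩ := hTF H (ε / (2 * N)) (by omega) (by positivity)
  -- the modulus
  set W := W₀ * (w₀ + 2).factorial with hW
  have hfac : 2 ≤ (w₀ + 2).factorial := by
    have := Nat.factorial_le (show 2 ≤ w₀ + 2 by omega)
    simpa using this
  have hW2 : 2 ≤ W := by
    rw [hW]
    nlinarith
  have hWp : ∀ p, p.Prime → p ≤ w₀ → p ∣ W := by
    intro p hp hpw
    exact Dvd.dvd.mul_left (hp.dvd_factorial.2 (by omega)) W₀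
  refine ⟨W, hW2, Dvd.intro _ rfl, fun E₀ => ?_⟩
  have hcop : ∀ b ∈ ({1, W - 1} : Finset ℕ), Nat.Coprime b W := by
    intro b hb
    rw [mem_insert, mem_singleton] at hb
    rcases hb with rfl | rfl
    · exact Nat.coprime_one_left W
    · have h1 : W = (W - 1) + 1 := by omega
      have h2 : Nat.Coprime (W - 1) (W - 1 + 1) := by simp
      rwa [← h1] at h2
  obtain ⟨w, D, hw, hD, hAD, hsum⟩ := hSC (prob μ) hP lam lam_CM H W {1, W - 1} (ε / 2) (by omega)
    (by omega) hcop (by positivity) A (max D₀ E₀)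
  refine ⟨D, (le_max_right _ _).trans hD, fun b hb => ?_⟩
  have key : ∑ d ∈ range D, prob μ (bad h J C (W * d + b)) ≤ ε * D := by
    have h1 : ∑ d ∈ range D, prob μ (bad h J C (W * d + b)) =
        ∑ d ∈ range D, nu W b w d * prob μ (bad h J C (W * d + b)) -
        ∑ x ∈ univ.filter (badW h J C), ∑ d ∈ range D, (nu W b w d - 1) *
          prob μ {n | ED.W lam (W * d + b) H n = x} := by
      rw [Finset.sum_comm, ← Finset.sum_sub_distrib]
      refine Finset.sum_congr rfl fun d _ => ?_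
      rw [← Finset.mul_sum, ← P_bad hPart hE hP]
      ring
    have h2 : ∑ d ∈ range D, nu W b w d * prob μ (bad h J C (W * d + b)) ≤ ε / 2 * D := by
      refine (Finset.sum_le_sum fun d _ => ?_).trans (hsum b hb)
      exact mul_le_mul_of_nonneg_left (P_bad_le hPart hPos hE h C hS hP J _) (nu_nonneg _ _ _ _)
    have h3 : |∑ x ∈ univ.filter (badW h J C), ∑ d ∈ range D, (nu W b w d - 1) *
          prob μ {n | ED.W lam (W * d + b) H n = x}| ≤ ε / 2 * D := by
      refine (Finset.abs_sum_le_sum_abs _ _).trans ?_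
      have h4 : ∀ x ∈ univ.filter (badW h J C), |∑ d ∈ range D, (nu W b w d - 1) *
          prob μ {n | ED.W lam (W * d + b) H n = x}| ≤ ε / (2 * N) * D := fun x _ =>
        hTF μ hμ lam W b hWp D w ((le_max_left _ _).trans hD) hw hAD x
      refine (Finset.sum_le_sum h4).trans ?_
      rw [Finset.sum_const, nsmul_eq_mul]
      have h5 : ((univ.filter (badW h J C)).card : ℝ) ≤ N := by
        rw [hN]
        exact_mod_cast Finset.card_le_univ _
      have h6 : ε / 2 * D = N * (ε / (2 * N) * D) := by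
        field_simp
      rw [h6]
      exact mul_le_mul_of_nonneg_right h5 (by positivity)
    rw [h1]
    have h7 := neg_abs_le (∑ x ∈ univ.filter (badW h J C), ∑ d ∈ range D, (nu W b w d - 1) *
          prob μ {n | ED.W lam (W * d + b) H n = x})
    linarith
  exact key

end Pool.Agent.Helper18.TR
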