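import Pool.Agent.Helper18.TR.St

/-! # Module GV: generalized von Neumann theorem for a shift invariant mean -/

set_option autoImplicit false

namespace Pool.Agent.Helper18.TR

open Finset Pool.Agent.Helper18.ED

/-! ### Facts on means -/

theorem gv_bdd_add {f g : ℕ → ℝ} (hf : Bdd f) (hg : Bdd g) : Bdd (fun n => f n + g n) := by
  obtain ⟨C, hC⟩ := hf
  obtain ⟨C', hC'⟩ := hg
  exact ⟨C + C', fun n => (abs_add_le _ _).trans (add_le_add (hC n) (hC' n))⟩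

theorem gv_bdd_smul {f : ℕ → ℝ} (c : ℝ) (hf : Bdd f) : Bdd (fun n => c * f n) := by
  obtain ⟨C, hC⟩ := hf
  refine ⟨|c| * C, fun n => ?_⟩
  rw [abs_mul]
  exact mul_le_mul_of_nonneg_left (hC n) (abs_nonneg c)

theorem gv_bdd_mul {f g : ℕ → ℝ} (hf : Bdd f) (hg : Bdd g) : Bdd (fun n => f n * g n) := by
  obtain ⟨C, hC⟩ := hf
  obtain ⟨C', hC'⟩ := hg
  refine ⟨C * C', fun n => ?_⟩
  rw [abs_mul]
  exact mul_le_mul (hC n) (hC' n) (abs_nonneg _) ((abs_nonneg _).trans (hC n))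

theorem gv_bdd_sum {ι : Type} (s : Finset ι) {f : ι → ℕ → ℝ} (hf : ∀ i ∈ s, Bdd (f i)) :
    Bdd (fun n => ∑ i ∈ s, f i n) := by
  classical
  induction s using Finset.induction_on with
  | empty => exact ⟨0, fun n => by simp⟩
  | insert a s ha ih =>
    simp only [Finset.sum_insert ha]
    exact gv_bdd_add (hf a (mem_insert_self a s)) (ih fun i hi => hf i (mem_insert_of_mem hi))

theorem gv_const {μ : (ℕ → ℝ) → ℝ} (hμ : LogMean μ) (c : ℝ) : μ (fun _ => c) = c := by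
  have h := hμ.smul c (fun _ => 1) ⟨1, fun n => by simp⟩
  simpa [hμ.one] using h

theorem gv_sum {μ : (ℕ → ℝ) → ℝ} (hμ : LogMean μ) {ι : Type} (s : Finset ι) {f : ι → ℕ → ℝ}
    (hf : ∀ i ∈ s, Bdd (f i)) : μ (fun n => ∑ i ∈ s, f i n) = ∑ i ∈ s, μ (f i) := by
  classical
  induction s using Finset.induction_on with
  | empty => simpa using gv_const hμ 0
  | insert a s ha ih =>
    simp only [Finset.sum_insert ha]
    rw [hμ.add _ _ (hf a (mem_insert_self a s))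
      (gv_bdd_sum s fun i hi => hf i (mem_insert_of_mem hi)),
      ih fun i hi => hf i (mem_insert_of_mem hi)]

theorem gv_mono {μ : (ℕ → ℝ) → ℝ} (hμ : LogMean μ) {f g : ℕ → ℝ} (hf : Bdd f) (hg : Bdd g)
    (h : ∀ n, f n ≤ g n) : μ f ≤ μ g := by
  have h1 := hμ.nonneg (fun n => g n + (-1) * f n) (gv_bdd_add hg (gv_bdd_smul (-1) hf))
    (fun n => by linarith [h n])
  rw [hμ.add _ _ hg (gv_bdd_smul (-1) hf), hμ.smul _ _ hf] at h1
  linarith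

theorem gv_sq {μ : (ℕ → ℝ) → ℝ} (hμ : LogMean μ) {f : ℕ → ℝ} (hf : Bdd f) :
    μ f ^ 2 ≤ μ (fun n => f n * f n) := by
  set c := μ f with hc
  have hb : Bdd (fun _ : ℕ => c ^ 2) := ⟨|c ^ 2|, fun _ => le_rfl⟩
  have h1 := hμ.nonneg (fun n => (f n * f n + (-2 * c) * f n) + c ^ 2)
    (gv_bdd_add (gv_bdd_add (gv_bdd_mul hf hf) (gv_bdd_smul _ hf)) hb)
    (fun n => by nlinarith [sq_nonneg (f n - c)])
  rw [hμ.add _ _ (gv_bdd_add (gv_bdd_mul hf hf) (gv_bdd_smul _ hf)) hb,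
    hμ.add _ _ (gv_bdd_mul hf hf) (gv_bdd_smul _ hf), hμ.smul _ _ hf, gv_const hμ, ← hc] at h1
  nlinarith

theorem gv_abs {μ : (ℕ → ℝ) → ℝ} (hμ : LogMean μ) {f : ℕ → ℝ} {C : ℝ} (hf : ∀ n, |f n| ≤ C) :
    |μ f| ≤ C := by
  have hb : ∀ c : ℝ, Bdd (fun _ : ℕ => c) := fun c => ⟨|c|, fun _ => le_rfl⟩
  rw [abs_le]
  constructor
  · have := gv_mono hμ (hb (-C)) ⟨C, hf⟩ (fun n => (abs_le.1 (hf n)).1)
    rwa [gv_const hμ] at this
  · have := gv_mono hμ ⟨C, hf⟩ (hb C) (fun n => (abs_le.1 (hf n)).2)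
    rwa [gv_const hμ] at this

theorem gv_shift_nat {μ : (ℕ → ℝ) → ℝ} (hμ : LogMean μ) {F : ℤ → ℝ} {C : ℝ}
    (hF : ∀ n, |F n| ≤ C) (k : ℕ) : μ (fun n => F ((n : ℤ) + k)) = μ (fun n => F n) := by
  induction k with
  | zero => simp
  | succ k ih =>
    rw [← ih, ← hμ.shift (fun n : ℕ => F ((n : ℤ) + k)) ⟨C, fun n => hF _⟩]
    congr 1
    funext n
    congr 1
    push_cast
    ring

theorem gv_shift {μ : (ℕ → ℝ) → ℝ} (hμ : LogMean μ) {F : ℤ → ℝ} {C : ℝ}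
    (hF : ∀ n, |F n| ≤ C) (c : ℤ) : μ (fun n => F ((n : ℤ) + c)) = μ (fun n => F n) := by
  rcases le_total 0 c with hc | hc
  · obtain ⟨k, rfl⟩ := Int.eq_ofNat_of_zero_le hc
    exact gv_shift_nat hμ hF k
  · obtain ⟨k, hk⟩ := Int.eq_ofNat_of_zero_le (neg_nonneg.2 hc)
    have h := gv_shift_nat hμ (F := fun m => F (m + c)) (C := C) (fun n => hF _) k
    rw [← h]
    congr 1
    funext n
    congr 1
    rw [← hk]
    ring

/-! ### Reindexing -/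

theorem gv_reindex (D : ℕ) (A : ℤ → ℝ) (hA : ∀ d, ¬ (0 ≤ d ∧ d < (D : ℤ)) → A d = 0) (d : ℤ)
    (hd : d ∈ Ico (0 : ℤ) D) :
    ∑ d' ∈ Ico (0 : ℤ) D, A d' = ∑ h ∈ Ioo (-(D : ℤ)) D, A (d + h) := by
  rw [mem_Ico] at hd
  have h1 : ∑ h ∈ Ioo (-(D : ℤ)) D, A (d + h) = ∑ d' ∈ Ioo (d - D) (d + D), A d' := by
    refine Finset.sum_bij (fun h _ => d + h) ?_ ?_ ?_ ?_
    · intro h hh
      rw [mem_Ioo] at hh ⊢
      constructor <;> linarith [hh.1, hh.2]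
    · intro a _ b _ hab
      exact add_left_cancel hab
    · intro b hb
      rw [mem_Ioo] at hb
      refine ⟨b - d, ?_, by ring⟩
      rw [mem_Ioo]
      constructor <;> linarith [hb.1, hb.2]
    · intro h _
      rfl
  rw [h1]
  refine Finset.sum_subset ?_ ?_
  · intro x hx
    rw [mem_Ico] at hx
    rw [mem_Ioo]
    constructor <;> linarith [hx.1, hx.2]
  · intro x _ hx
    refine hA x fun h => hx ?_
    rw [mem_Ico]
    exact h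

theorem gv_double (D : ℕ) (θ : ℤ → ℝ) (hθ : ∀ d, ¬ (0 ≤ d ∧ d < (D : ℤ)) → θ d = 0)
    (K : ℤ → ℤ → ℝ) :
    ∑ d ∈ Ico (0 : ℤ) D, ∑ d' ∈ Ico (0 : ℤ) D, θ d * θ d' * K d d' =
      ∑ h ∈ Ioo (-(D : ℤ)) D, ∑ d ∈ Ico (0 : ℤ) D, θ d * θ (d + h) * K d (d + h) := by
  rw [Finset.sum_comm (s := Ioo (-(D : ℤ)) D)]
  refine Finset.sum_congr rfl fun d hd => ?_
  refine gv_reindex D (fun d' => θ d * θ d' * K d d') ?_ d hd
  intro d' hd'
  rw [hθ d' hd']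
  ring

/-- the correlation -/
noncomputable def gv_S (μ : (ℕ → ℝ) → ℝ) (D q r : ℕ) (g : ℕ → ℤ → ℝ) (θ : ℤ → ℝ) : ℝ :=
  ∑ d ∈ Ico (0 : ℤ) D, θ d * μ (fun n => ∏ j ∈ range (r + 1), g j ((n : ℤ) + j * (q * d)))

theorem gv_prod_le {r : ℕ} {g : ℕ → ℤ → ℝ} (hg : ∀ j n, |g j n| ≤ 1) (m : ℕ → ℤ) :
    |∏ j ∈ range r, g j (m j)| ≤ 1 := by
  rw [Finset.abs_prod]
  exact Finset.prod_le_one (fun _ _ => abs_nonneg _) fun j _ => hg j _

/-- one step of the van der Corput inequality -/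
theorem gv_step {μ : (ℕ → ℝ) → ℝ} (hμ : LogMean μ) (r D q : ℕ) (g : ℕ → ℤ → ℝ)
    (hg : ∀ j n, |g j n| ≤ 1) (θ : ℤ → ℝ) (hθ : ∀ d, ¬ (0 ≤ d ∧ d < (D : ℤ)) → θ d = 0) :
    gv_S μ D q (r + 1) g θ ^ 2 ≤ ∑ h ∈ Ioo (-(D : ℤ)) D,
      gv_S μ D q r (fun j m => g (j + 1) m * g (j + 1) (m + (j + 1) * (q * h)))
        (fun d => θ d * θ (d + h)) := by
  set P : ℤ → ℕ → ℝ := fun d n => ∏ j ∈ range (r + 1), g (j + 1) ((n : ℤ) + (j + 1) * (q * d))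
    with hP
  have hPb : ∀ d n, |P d n| ≤ 1 := fun d n =>
    gv_prod_le (g := fun j => g (j + 1)) (fun j n => hg (j + 1) n) _
  have hPB : ∀ d, Bdd (P d) := fun d => ⟨1, hPb d⟩
  have hg0 : Bdd (fun n : ℕ => g 0 n) := ⟨1, fun n => hg 0 n⟩
  have h1 : gv_S μ D q (r + 1) g θ =
      μ (fun n => g 0 n * ∑ d ∈ Ico (0 : ℤ) D, θ d * P d n) := by
    have e1 : (fun n : ℕ => g 0 n * ∑ d ∈ Ico (0 : ℤ) D, θ d * P d n) =
        fun n : ℕ => ∑ d ∈ Ico (0 : ℤ) D, θ d * (g 0 n * P d n) := by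
      funext n
      rw [Finset.mul_sum]
      refine Finset.sum_congr rfl fun d _ => ?_
      ring
    rw [e1, gv_sum hμ _ (fun d _ => gv_bdd_smul _ (gv_bdd_mul hg0 (hPB d))), gv_S]
    refine Finset.sum_congr rfl fun d _ => ?_
    rw [hμ.smul _ _ (gv_bdd_mul hg0 (hPB d))]
    congr 2
    funext n
    rw [Finset.prod_range_succ', mul_comm]
    simp only [Nat.cast_zero, zero_mul, add_zero, hP, Nat.cast_add, Nat.cast_one]
  have hsB : Bdd (fun n => ∑ d ∈ Ico (0 : ℤ) D, θ d * P d n) :=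
    gv_bdd_sum _ fun d _ => gv_bdd_smul _ (hPB d)
  rw [h1]
  refine (gv_sq hμ (gv_bdd_mul hg0 hsB)).trans ?_
  have h2 : μ (fun n => g 0 n * (∑ d ∈ Ico (0 : ℤ) D, θ d * P d n) *
      (g 0 n * ∑ d ∈ Ico (0 : ℤ) D, θ d * P d n)) ≤
      μ (fun n => (∑ d ∈ Ico (0 : ℤ) D, θ d * P d n) * ∑ d ∈ Ico (0 : ℤ) D, θ d * P d n) := by
    refine gv_mono hμ (gv_bdd_mul (gv_bdd_mul hg0 hsB) (gv_bdd_mul hg0 hsB))
      (gv_bdd_mul hsB hsB) fun n => ?_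
    have h3 : g 0 n ^ 2 ≤ 1 := by
      have := hg 0 n
      rw [← sq_abs]
      exact pow_le_one₀ (abs_nonneg _) this
    nlinarith [mul_self_nonneg (∑ d ∈ Ico (0 : ℤ) D, θ d * P d n)]
  refine h2.trans (le_of_eq ?_)
  have h4 : (fun n => (∑ d ∈ Ico (0 : ℤ) D, θ d * P d n) * ∑ d ∈ Ico (0 : ℤ) D, θ d * P d n) =
      fun n => ∑ d ∈ Ico (0 : ℤ) D, ∑ d' ∈ Ico (0 : ℤ) D, θ d * θ d' * (P d n * P d' n) := by
    funext n
    rw [Finset.sum_mul_sum]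
    refine Finset.sum_congr rfl fun d _ => Finset.sum_congr rfl fun d' _ => ?_
    ring
  have hPP : ∀ d d', Bdd (fun n => P d n * P d' n) := fun d d' => gv_bdd_mul (hPB d) (hPB d')
  rw [h4, gv_sum hμ _ (fun d _ => gv_bdd_sum _ fun d' _ => gv_bdd_smul _ (hPP d d'))]
  have h5 : ∀ d ∈ Ico (0 : ℤ) D, μ (fun n => ∑ d' ∈ Ico (0 : ℤ) D, θ d * θ d' * (P d n * P d' n)) =
      ∑ d' ∈ Ico (0 : ℤ) D, θ d * θ d' * μ (fun n => P d n * P d' n) := by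
    intro d _
    rw [gv_sum hμ _ (fun d' _ => gv_bdd_smul _ (hPP d d'))]
    exact Finset.sum_congr rfl fun d' _ => hμ.smul _ _ (hPP d d')
  rw [Finset.sum_congr rfl h5, gv_double D θ hθ]
  refine Finset.sum_congr rfl fun h _ => ?_
  rw [gv_S]
  refine Finset.sum_congr rfl fun d _ => ?_
  congr 1
  set F : ℤ → ℝ := fun m => ∏ j ∈ range (r + 1), (g (j + 1) (m + j * (q * d)) *
    g (j + 1) (m + j * (q * d) + (j + 1) * (q * h))) with hF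
  have hFb : ∀ m, |F m| ≤ 1 := by
    intro m
    rw [hF]
    simp only
    rw [Finset.abs_prod]
    refine Finset.prod_le_one (fun _ _ => abs_nonneg _) fun j _ => ?_
    rw [abs_mul]
    exact mul_le_one₀ (hg _ _) (abs_nonneg _) (hg _ _)
  have h6 := gv_shift hμ hFb (q * d)
  rw [← h6]
  congr 1
  funext n
  rw [hP, hF]
  simp only
  rw [← Finset.prod_mul_distrib]
  refine Finset.prod_congr rfl fun j _ => ?_
  congr 2 <;> ring

theorem gv_pow (D n : ℕ) (f : ℤ → ℝ) (hf : ∀ h, 0 ≤ f h) :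
    (∑ h ∈ Ioo (-(D : ℤ)) D, f h) ^ (n + 1) ≤
      (2 * (D : ℝ)) ^ n * ∑ h ∈ Ioo (-(D : ℤ)) D, f h ^ (n + 1) := by
  have h0 : 0 ≤ ∑ h ∈ Ioo (-(D : ℤ)) D, f h ^ (n + 1) :=
    Finset.sum_nonneg fun h _ => pow_nonneg (hf h) _
  rcases Nat.eq_zero_or_pos D with rfl | hD
  · simp
  have hc : (Ioo (-(D : ℤ)) D).card ≤ 2 * D := by
    rw [Int.card_Ioo]
    omega
  have hc0 : 0 < (Ioo (-(D : ℤ)) D).card := by
    rw [Int.card_Ioo]
    omega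
  have h1 := pow_sum_div_card_le_sum_pow (s := Ioo (-(D : ℤ)) D) (f := f) (fun h _ => hf h) n
  rw [div_le_iff₀ (by positivity), mul_comm] at h1
  refine h1.trans (mul_le_mul_of_nonneg_right (pow_le_pow_left₀ (by positivity) ?_ n) h0)
  exact_mod_cast hc

theorem gv_exp (r : ℕ) : 2 ^ (r + 1) - 1 + (2 ^ (r + 1) - (r + 2)) = 2 ^ (r + 2) - (r + 3) := by
  have h : r + 2 ≤ 2 ^ (r + 1) := Nat.lt_two_pow_self (n := r + 1)
  have h2 : 2 ^ (r + 2) = 2 * 2 ^ (r + 1) := by ring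
  omega

theorem pf_GvN : StGvN := by
  intro μ hμ r D q
  show ∀ g : ℕ → ℤ → ℝ, (∀ j n, |g j n| ≤ 1) → ∀ θ : ℤ → ℝ,
    (∀ d, ¬ (0 ≤ d ∧ d < (D : ℤ)) → θ d = 0) →
    |gv_S μ D q r g θ| ^ (2 ^ (r + 1)) ≤ (2 * (D : ℝ)) ^ (2 ^ (r + 1) - (r + 2)) * U D (r + 1) θ
  induction r with
  | zero =>
    intro g hg θ hθ
    have h1 : gv_S μ D q 0 g θ = μ (fun n => g 0 n) * ∑ d ∈ Ico (0 : ℤ) D, θ d := by
      rw [gv_S, Finset.mul_sum]
      refine Finset.sum_congr rfl fun d _ => ?_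
      rw [mul_comm]
      congr 2
      funext n
      simp
    have h2 : U D 1 θ = (∑ d ∈ Ico (0 : ℤ) D, θ d) ^ 2 := by
      have h3 := gv_double D θ hθ (fun _ _ => 1)
      simp only [mul_one] at h3
      rw [pow_two, Finset.sum_mul_sum, h3]
      rfl
    have h4 : |μ (fun n => g 0 n)| ≤ 1 := gv_abs hμ fun n => hg 0 n
    rw [h1, h2]
    simp only [zero_add, pow_one, Nat.sub_self, pow_zero, one_mul]
    rw [sq_abs, mul_pow]
    have h5 : μ (fun n => g 0 n) ^ 2 ≤ 1 := by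
      rw [← sq_abs]
      exact pow_le_one₀ (abs_nonneg _) h4
    exact mul_le_of_le_one_left (sq_nonneg _) h5
  | succ r ih =>
    intro g hg θ hθ
    set T : ℤ → ℝ := fun h => gv_S μ D q r
      (fun j m => g (j + 1) m * g (j + 1) (m + (j + 1) * (q * h))) (fun d => θ d * θ (d + h))
      with hT
    have h1 : gv_S μ D q (r + 1) g θ ^ 2 ≤ ∑ h ∈ Ioo (-(D : ℤ)) D, |T h| :=
      (gv_step hμ r D q g hg θ hθ).trans (Finset.sum_le_sum fun h _ => le_abs_self _)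
    have h2 : ∀ h, |T h| ^ (2 ^ (r + 1)) ≤ (2 * (D : ℝ)) ^ (2 ^ (r + 1) - (r + 2)) *
        U D (r + 1) (fun d => θ d * θ (d + h)) := by
      intro h
      refine ih _ ?_ _ ?_
      · intro j m
        rw [abs_mul]
        exact mul_le_one₀ (hg _ _) (abs_nonneg _) (hg _ _)
      · intro d hd
        rw [hθ d hd, zero_mul]
    have h3 : (2 : ℕ) ^ (r + 1 + 1) = 2 * 2 ^ (r + 1) := by ring
    have h4 : ∃ n, 2 ^ (r + 1) = n + 1 := ⟨2 ^ (r + 1) - 1, by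
      have : 0 < 2 ^ (r + 1) := by positivity
      omega⟩
    obtain ⟨n, hn⟩ := h4
    calc |gv_S μ D q (r + 1) g θ| ^ (2 ^ (r + 1 + 1))
        = (gv_S μ D q (r + 1) g θ ^ 2) ^ (2 ^ (r + 1)) := by rw [h3, pow_mul, sq_abs]
      _ ≤ (∑ h ∈ Ioo (-(D : ℤ)) D, |T h|) ^ (2 ^ (r + 1)) :=
          pow_le_pow_left₀ (sq_nonneg _) h1 _
      _ ≤ (2 * (D : ℝ)) ^ (2 ^ (r + 1) - 1) * ∑ h ∈ Ioo (-(D : ℤ)) D, |T h| ^ (2 ^ (r + 1)) := by
          rw [hn]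
          exact gv_pow D n (fun h => |T h|) (fun h => abs_nonneg _)
      _ ≤ (2 * (D : ℝ)) ^ (2 ^ (r + 1) - 1) * ∑ h ∈ Ioo (-(D : ℤ)) D,
          (2 * (D : ℝ)) ^ (2 ^ (r + 1) - (r + 2)) * U D (r + 1) (fun d => θ d * θ (d + h)) :=
          mul_le_mul_of_nonneg_left (Finset.sum_le_sum fun h _ => h2 h) (by positivity)
      _ = (2 * (D : ℝ)) ^ (2 ^ (r + 1 + 1) - (r + 1 + 2)) * U D (r + 1 + 1) θ := by
          rw [← Finset.mul_sum, ← mul_assoc, ← pow_add, gv_exp]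
          rfl

end Pool.Agent.Helper18.TR
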