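import Pool.Agent.Helper18.TR.St

/-! Module LO: local densities. -/

namespace Pool.Agent.Helper18.TR

open Finset

/-- exactly one `d` in `[0, p)` solves `p ∣ W (d + c) + b` -/
theorem lo_one {W b p : ℕ} (hp : p.Prime) (hW : ¬ p ∣ W) (c : ℤ) :
    ((Ico (0 : ℤ) p).filter (fun d => (p : ℤ) ∣ W * (d + c) + b)).card = 1 := by
  have hcop : IsCoprime (W : ℤ) (p : ℤ) := by
    rw [Nat.isCoprime_iff_coprime]
    exact ((Nat.Prime.coprime_iff_not_dvd hp).2 hW).symm
  obtain ⟨u, v, huv⟩ := hcop
  have hp0 : (0 : ℤ) < p := by exact_mod_cast hp.pos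
  rw [Finset.card_eq_one]
  refine ⟨(-(u * b) - c) % p, ?_⟩
  ext d
  simp only [mem_filter, mem_Ico, mem_singleton]
  constructor
  · rintro ⟨⟨h0, h1⟩, h2⟩
    rw [← Int.emod_eq_of_lt h0 h1]
    apply Int.ModEq.symm
    rw [Int.modEq_iff_dvd]
    have h3 : d - (-(u * b) - c) = u * (W * (d + c) + b) + p * (v * (d + c)) := by
      linear_combination (-(d + c)) * huv
    rw [h3]
    exact dvd_add (Dvd.dvd.mul_left h2 _) (dvd_mul_right _ _)
  · intro hd
    have h0 : 0 ≤ d := by rw [hd]; exact Int.emod_nonneg _ hp0.ne'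
    have h1 : d < p := by rw [hd]; exact Int.emod_lt_of_pos _ hp0
    refine ⟨⟨h0, h1⟩, ?_⟩
    have h2 : (p : ℤ) ∣ (-(u * b) - c) - d := by
      rw [hd]
      exact Int.dvd_self_sub_emod
    obtain ⟨k, hk⟩ := h2
    refine ⟨-(W : ℤ) * k + v * b, ?_⟩
    linear_combination (-(W : ℤ)) * hk - (b : ℤ) * huv

theorem lo_pi (s p : ℕ) : (Fintype.piFinset (fun _ : Fin s => Ico (0 : ℤ) p)).card = p ^ s := by
  simp

/-- the solutions of a nontrivial homogeneous equation -/
theorem lo_hyper {s p : ℕ} {ω ω' : Finset (Fin s)} (hne : ω ≠ ω') :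
    p * ((Fintype.piFinset (fun _ : Fin s => Ico (0 : ℤ) p)).filter
      (fun h => (p : ℤ) ∣ ∑ i ∈ ω, h i - ∑ i ∈ ω', h i)).card ≤ p ^ s := by
  classical
  obtain ⟨i, hi⟩ : ∃ i, ¬ (i ∈ ω ↔ i ∈ ω') := by
    by_contra hcon
    push Not at hcon
    exact hne (Finset.ext hcon)
  rcases Nat.eq_zero_or_pos p with rfl | hp
  · simp
  have hp0 : (0 : ℤ) < p := by exact_mod_cast hp
  set P := Fintype.piFinset (fun _ : Fin s => Ico (0 : ℤ) p) with hP
  set H := P.filter (fun h => (p : ℤ) ∣ ∑ i ∈ ω, h i - ∑ i ∈ ω', h i) with hH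
  have hc : ((Ico (0 : ℤ) p) ×ˢ H).card = p * H.card := by
    rw [card_product]; simp
  rw [← hc, ← lo_pi s p]
  apply Finset.card_le_card_of_injOn
    (fun x : ℤ × (Fin s → ℤ) => Function.update x.2 i ((x.2 i + x.1) % p))
  · rintro ⟨t, h⟩ hx
    simp only [coe_product, Set.mem_prod, mem_coe, hH, mem_filter, hP,
      Fintype.mem_piFinset, mem_Ico] at hx
    simp only [mem_coe, Fintype.mem_piFinset, mem_Ico]
    intro j
    by_cases hj : j = i
    · subst hj
      simp only [Function.update_self]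
      exact ⟨Int.emod_nonneg _ hp0.ne', Int.emod_lt_of_pos _ hp0⟩
    · rw [Function.update_of_ne hj]
      exact hx.2.1 j
  · rintro ⟨t, h⟩ hx ⟨t', h'⟩ hx' heq
    simp only [coe_product, Set.mem_prod, mem_coe, hH, mem_filter, hP,
      Fintype.mem_piFinset, mem_Ico] at hx hx'
    simp only at heq
    have hoff : ∀ j, j ≠ i → h j = h' j := by
      intro j hj
      have := congrFun heq j
      rwa [Function.update_of_ne hj, Function.update_of_ne hj] at this
    have hdvd : (p : ℤ) ∣ h i - h' i := by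
      have h1 := hx.2.2
      have h2 := hx'.2.2
      have h3 := dvd_sub h1 h2
      have key : ∀ T : Finset (Fin s), ∑ j ∈ T, h j - ∑ j ∈ T, h' j =
          if i ∈ T then h i - h' i else 0 := by
        intro T
        rw [← Finset.sum_sub_distrib]
        by_cases hiT : i ∈ T
        · rw [if_pos hiT]
          apply Finset.sum_eq_single_of_mem i hiT
          intro j _ hj
          rw [hoff j hj, sub_self]
        · rw [if_neg hiT]
          apply Finset.sum_eq_zero
          intro j hj
          have : j ≠ i := fun e => hiT (e ▸ hj)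
          rw [hoff j this, sub_self]
      have h4 : (∑ j ∈ ω, h j - ∑ j ∈ ω', h j) - (∑ j ∈ ω, h' j - ∑ j ∈ ω', h' j) =
          (if i ∈ ω then h i - h' i else 0) - (if i ∈ ω' then h i - h' i else 0) := by
        rw [← key ω, ← key ω']; ring
      rw [h4] at h3
      by_cases hiω : i ∈ ω
      · have hiω' : i ∉ ω' := fun e => hi ⟨fun _ => e, fun _ => hiω⟩
        rw [if_pos hiω, if_neg hiω', sub_zero] at h3
        exact h3
      · have hiω' : i ∈ ω' := by
          by_contra e
          exact hi ⟨fun a => absurd a hiω, fun a => absurd a e⟩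
        rw [if_neg hiω, if_pos hiω', zero_sub] at h3
        exact (dvd_neg.1 h3)
    have hii : h i = h' i := by
      have a := hx.2.1 i
      have a' := hx'.2.1 i
      have := Int.eq_zero_of_abs_lt_dvd hdvd (by rw [abs_lt]; constructor <;> linarith [a.1, a.2, a'.1, a'.2])
      linarith
    have hh : h = h' := by
      funext j
      by_cases hj : j = i
      · rw [hj, hii]
      · exact hoff j hj
    have hti := congrFun heq i
    simp only [Function.update_self] at hti
    have hmod : (p : ℤ) ∣ t - t' := by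
      have := Int.emod_emod_of_dvd
      have h5 : (h i + t) ≡ (h' i + t') [ZMOD p] := hti
      rw [Int.modEq_iff_dvd] at h5
      have h6 : h' i + t' - (h i + t) = -(t - t') := by rw [hii]; ring
      rw [h6] at h5
      exact dvd_neg.1 h5
    have htt : t = t' := by
      have a := hx.1
      have a' := hx'.1
      have := Int.eq_zero_of_abs_lt_dvd hmod (by rw [abs_lt]; constructor <;> linarith [a.1, a.2, a'.1, a'.2])
      linarith
    rw [hh, htt]

/-- the cubes with a given bad vertex -/
noncomputable def loA {s : ℕ} (W b p : ℕ) (ω : Finset (Fin s)) : Finset ((Fin s → ℤ) × ℤ) :=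
  (box s p).filter (fun x => (p : ℤ) ∣ W * vert x.1 x.2 ω + b)

theorem lo_card {s W b p : ℕ} (hp : p.Prime) (hW : ¬ p ∣ W) (ω : Finset (Fin s)) :
    (loA W b p ω).card = p ^ s := by
  unfold loA box
  rw [Finset.card_filter, Finset.sum_product]
  have h1 : ∀ h ∈ Fintype.piFinset (fun _ : Fin s => Ico (0 : ℤ) p),
      (∑ d ∈ Ico (0 : ℤ) p, if (p : ℤ) ∣ W * vert h d ω + b then 1 else 0) = 1 := by
    intro h _
    rw [← Finset.card_filter]
    exact lo_one hp hW _
  rw [Finset.sum_congr rfl h1]
  simp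

theorem lo_inter {s W b p : ℕ} (hp : p.Prime) (hW : ¬ p ∣ W) {ω ω' : Finset (Fin s)}
    (hne : ω ≠ ω') : p * ((loA W b p ω).filter (fun x => x ∈ loA W b p ω')).card ≤ p ^ s := by
  refine le_trans ?_ (lo_hyper (p := p) hne)
  apply Nat.mul_le_mul_left
  have hsub : (loA W b p ω).filter (fun x => x ∈ loA W b p ω') ⊆
      (box s p).filter (fun x => (p : ℤ) ∣ ∑ i ∈ ω, x.1 i - ∑ i ∈ ω', x.1 i ∧
        (p : ℤ) ∣ W * vert x.1 x.2 ω + b) := by
    intro x hx
    unfold loA at hx
    simp only [mem_filter] at hx ⊢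
    obtain ⟨⟨hb, h1⟩, _, h2⟩ := hx
    refine ⟨hb, ?_, h1⟩
    have h3 := dvd_sub h1 h2
    have h4 : (W : ℤ) * vert x.1 x.2 ω + b - (W * vert x.1 x.2 ω' + b) =
        W * (∑ i ∈ ω, x.1 i - ∑ i ∈ ω', x.1 i) := by unfold vert; ring
    rw [h4] at h3
    have hcop : IsCoprime (p : ℤ) (W : ℤ) := by
      rw [Nat.isCoprime_iff_coprime]
      exact (Nat.Prime.coprime_iff_not_dvd hp).2 hW
    exact hcop.dvd_of_dvd_mul_left h3
  refine le_trans (Finset.card_le_card hsub) ?_
  unfold box
  rw [Finset.card_filter, Finset.sum_product, Finset.card_filter]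
  apply Finset.sum_le_sum
  intro h _
  by_cases hd : (p : ℤ) ∣ ∑ i ∈ ω, h i - ∑ i ∈ ω', h i
  · simp only [hd, true_and, if_true]
    rw [← Finset.card_filter]
    exact (lo_one hp hW _).le
  · simp [hd]

theorem pf_Local : StLocal := by
  classical
  intro s W b S p hp hW
  have hp0 : (0 : ℝ) < p := by exact_mod_cast hp.pos
  have hhit : (box s p).filter (hit W b S p) = S.biUnion (loA W b p) := by
    ext x
    simp only [mem_filter, mem_biUnion, loA, hit]
    constructor
    · rintro ⟨h1, ω, h2, h3⟩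
      exact ⟨ω, h2, h1, h3⟩
    · rintro ⟨ω, h2, h1, h3⟩
      exact ⟨h1, ω, h2, h3⟩
  have hup : ((box s p).filter (hit W b S p)).card ≤ S.card * p ^ s := by
    rw [hhit]
    refine le_trans Finset.card_biUnion_le ?_
    rw [Finset.sum_congr rfl (fun ω _ => lo_card hp hW ω)]
    simp
  have hlow : (S.card : ℤ) * p ^ (s + 1) - (S.card : ℤ) ^ 2 * p ^ s ≤
      p * (((box s p).filter (hit W b S p)).card : ℤ) := by
    -- pointwise inequality
    have hpt : ∀ x ∈ box s p, (∑ ω ∈ S, (if x ∈ loA W b p ω then (1 : ℤ) else 0)) -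
        ∑ y ∈ S.offDiag, (if x ∈ loA W b p y.1 ∧ x ∈ loA W b p y.2 then (1 : ℤ) else 0) ≤
        if hit W b S p x then 1 else 0 := by
      intro x hx
      have e1 : (∑ ω ∈ S, (if x ∈ loA W b p ω then (1 : ℤ) else 0)) =
          ((S.filter (fun ω => x ∈ loA W b p ω)).card : ℤ) := by
        rw [Finset.card_filter]; push_cast; rfl
      have e2 : (∑ y ∈ S.offDiag, (if x ∈ loA W b p y.1 ∧ x ∈ loA W b p y.2
          then (1 : ℤ) else 0)) = (((S.filter (fun ω => x ∈ loA W b p ω)).offDiag).card : ℤ) := by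
        have : (S.filter (fun ω => x ∈ loA W b p ω)).offDiag =
            S.offDiag.filter (fun y => x ∈ loA W b p y.1 ∧ x ∈ loA W b p y.2) := by
          ext y
          simp only [mem_offDiag, mem_filter]
          tauto
        rw [this, Finset.card_filter]; push_cast; rfl
      rw [e1, e2, Finset.offDiag_card]
      set k := (S.filter (fun ω => x ∈ loA W b p ω)).card with hk
      rcases Nat.eq_zero_or_pos k with h0 | h0
      · rw [h0]
        simp only [Nat.cast_zero, mul_zero, Nat.sub_zero, sub_zero]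
        split_ifs <;> norm_num
      · have hh : hit W b S p x := by
          obtain ⟨ω, hω⟩ := Finset.card_pos.1 h0
          simp only [mem_filter, loA] at hω
          exact ⟨ω, hω.1, hω.2.2⟩
        rw [if_pos hh]
        have : k ≤ k * k := Nat.le_mul_self k
        push_cast [Nat.cast_sub this]
        have hk1 : (1 : ℤ) ≤ k := by exact_mod_cast h0
        nlinarith
    have hsum := Finset.sum_le_sum hpt
    rw [Finset.sum_sub_distrib, Finset.sum_comm,
      Finset.sum_comm (s := box s p) (t := S.offDiag)] at hsum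
    have f1 : ∀ ω ∈ S, (∑ x ∈ box s p, (if x ∈ loA W b p ω then (1 : ℤ) else 0)) = p ^ s := by
      intro ω _
      have : ((box s p).filter (fun x => x ∈ loA W b p ω)) = loA W b p ω := by
        ext x
        simp only [mem_filter, loA]
        tauto
      have h2 : (((box s p).filter (fun x => x ∈ loA W b p ω)).card : ℤ) = (p : ℤ) ^ s := by
        rw [this, lo_card hp hW ω]; push_cast; rfl
      rw [← h2, Finset.card_filter]; push_cast; rfl
    have f2 : ∀ y ∈ S.offDiag, (p : ℤ) * (∑ x ∈ box s p,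
        (if x ∈ loA W b p y.1 ∧ x ∈ loA W b p y.2 then (1 : ℤ) else 0)) ≤ p ^ s := by
      intro y hy
      rw [mem_offDiag] at hy
      have : ((box s p).filter (fun x => x ∈ loA W b p y.1 ∧ x ∈ loA W b p y.2)) =
          (loA W b p y.1).filter (fun x => x ∈ loA W b p y.2) := by
        ext x
        simp only [mem_filter, loA]
        tauto
      have h2 : (∑ x ∈ box s p,
        (if x ∈ loA W b p y.1 ∧ x ∈ loA W b p y.2 then (1 : ℤ) else 0)) =
          (((loA W b p y.1).filter (fun x => x ∈ loA W b p y.2)).card : ℤ) := by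
        rw [← this, Finset.card_filter]; push_cast; rfl
      rw [h2]
      exact_mod_cast lo_inter hp hW hy.2.2
    have f3 : (∑ x ∈ box s p, (if hit W b S p x then (1 : ℤ) else 0)) =
        (((box s p).filter (hit W b S p)).card : ℤ) := by
      rw [Finset.card_filter]; push_cast; rfl
    rw [Finset.sum_congr rfl f1, f3, Finset.sum_const, nsmul_eq_mul] at hsum
    have g2 : (p : ℤ) * (∑ y ∈ S.offDiag, ∑ x ∈ box s p,
        (if x ∈ loA W b p y.1 ∧ x ∈ loA W b p y.2 then (1 : ℤ) else 0)) ≤
        (S.card : ℤ) ^ 2 * p ^ s := by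
      rw [Finset.mul_sum]
      refine le_trans (Finset.sum_le_sum f2) ?_
      rw [Finset.sum_const, nsmul_eq_mul, Finset.offDiag_card]
      apply mul_le_mul_of_nonneg_right _ (by positivity)
      have : S.card * S.card - S.card ≤ S.card ^ 2 := by
        rw [sq]; exact Nat.sub_le _ _
      exact_mod_cast this
    have hpz : (0 : ℤ) ≤ p := by positivity
    have h5 := mul_le_mul_of_nonneg_left hsum hpz
    rw [mul_sub] at h5
    have h6 : (p : ℤ) * ((S.card : ℤ) * p ^ s) = (S.card : ℤ) * p ^ (s + 1) := by ring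
    rw [h6] at h5
    linarith
  constructor
  · unfold gg
    rw [div_le_div_iff₀ (by positivity) hp0]
    have : (((box s p).filter (hit W b S p)).card : ℝ) ≤ S.card * (p : ℝ) ^ s := by
      exact_mod_cast hup
    calc (((box s p).filter (hit W b S p)).card : ℝ) * p ≤ S.card * (p : ℝ) ^ s * p :=
          mul_le_mul_of_nonneg_right this hp0.le
      _ = S.card * (p : ℝ) ^ (s + 1) := by ring
  · unfold gg
    have h7 : (S.card : ℝ) * p ^ (s + 1) - (S.card : ℝ) ^ 2 * p ^ s ≤
      p * (((box s p).filter (hit W b S p)).card : ℝ) := by exact_mod_cast hlow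
    have h8 : (S.card : ℝ) / p - (S.card : ℝ) ^ 2 / (p : ℝ) ^ 2 =
        ((S.card : ℝ) * p ^ (s + 1) - (S.card : ℝ) ^ 2 * p ^ s) / p ^ (s + 2) := by
      field_simp
      try ring
    have h9 : (((box s p).filter (hit W b S p)).card : ℝ) / (p : ℝ) ^ (s + 1) =
        (p * (((box s p).filter (hit W b S p)).card : ℝ)) / p ^ (s + 2) := by
      field_simp
      try ring
    rw [h8, h9]
    exact div_le_div_of_nonneg_right h7 (by positivity)

end Pool.Agent.Helper18.TR
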