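import Pool.Agent.Helper18.TR.St

/-! # Module PR: pseudorandomness of `nu` -/

set_option autoImplicit false

namespace Pool.Agent.Helper18.TR

open Finset Pool.Agent.Helper18.ED

theorem pr_V (W w : ℕ) (hw : 1 ≤ w) : 1 / (w : ℝ) ≤ V W w := by
  have h0 : ∀ w : ℕ, V W w = ∏ p ∈ Icc 1 w, if p.Prime ∧ ¬ p ∣ W then (1 - 1 / (p : ℝ)) else 1 :=
    fun w => by rw [V, PW, Finset.prod_filter]
  induction w, hw using Nat.le_induction with
  | base => 
    rw [h0]
    simp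
  | succ w hw ih =>
    rw [h0] at ih ⊢
    rw [Finset.prod_Icc_succ_top (by omega)]
    have hw' : (1 : ℝ) ≤ w := by exact_mod_cast hw
    have h1 : (w : ℝ) / (w + 1) ≤ if (w + 1).Prime ∧ ¬ (w + 1) ∣ W then (1 - 1 / ((w + 1 : ℕ) : ℝ))
        else 1 := by
      split_ifs
      · push_cast
        rw [one_sub_div (by positivity)]
        apply le_of_eq
        ring
      · rw [div_le_one (by positivity)]
        linarith
    calc 1 / ((w + 1 : ℕ) : ℝ) = 1 / (w : ℝ) * ((w : ℝ) / (w + 1)) := by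
          push_cast
          field_simp
      _ ≤ _ := mul_le_mul ih h1 (by positivity) (le_trans (by positivity) ih)

theorem pr_card (s D : ℕ) : ((cube s D).card : ℝ) ≤ 2 ^ s * (D : ℝ) ^ (s + 1) := by
  have h1 : (cube s D).card ≤ (2 * D) ^ s * D := by
    refine (Finset.card_filter_le _ _).trans ?_
    rw [Finset.card_product, Fintype.card_piFinset_const, Int.card_Ioo, Int.card_Ico]
    refine Nat.mul_le_mul (Nat.pow_le_pow_left (by omega) s) (by omega)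
  calc ((cube s D).card : ℝ) ≤ (((2 * D) ^ s * D : ℕ) : ℝ) := by exact_mod_cast h1
    _ = 2 ^ s * (D : ℝ) ^ (s + 1) := by
      push_cast
      ring

theorem pr_prod {s : ℕ} (W b w : ℕ) (S : Finset (Finset (Fin s))) (x : (Fin s → ℤ) × ℤ) :
    ∏ ω ∈ S, nu W b w (vert x.1 x.2 ω) =
      if ∀ p ∈ PW W w, ¬ hit W b S p x then (1 / V W w) ^ S.card else 0 := by
  split_ifs with h
  · rw [← Finset.prod_const]
    refine Finset.prod_congr rfl fun ω hω => ?_
    rw [nu, if_pos]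
    intro p hp hd
    exact h p hp ⟨ω, hω, hd⟩
  · push Not at h
    obtain ⟨p, hp, ω, hω, hd⟩ := h
    refine Finset.prod_eq_zero hω ?_
    rw [nu, if_neg]
    intro h2
    exact h2 p hp hd

theorem pf_PR (hFL : StFL) (hCount : StCount) (hLocal : StLocal) (hSing : StSing)
    (hRatio : StRatio) : StPR := by
  intro s ε hε
  set ε1 : ℝ := min 1 (ε / (6 * 2 ^ s)) with hε1
  have he0 : 0 < ε1 := lt_min one_pos (by positivity)
  have he1 : ε1 ≤ 1 := min_le_left _ _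
  have he2 : ε1 * (6 * 2 ^ s) ≤ ε := by
    rw [← le_div_iff₀ (by positivity)]
    exact min_le_right _ _
  obtain ⟨B, hB⟩ := hFL (2 ^ s) ε1 (by positivity) he0
  obtain ⟨C, hC0, hC⟩ := hCount s
  choose K hK0 hK using hRatio
  set Km := ∑ k ∈ range (2 ^ s + 1), K k with hKm
  have hKm0 : 0 ≤ Km := Finset.sum_nonneg fun k _ => hK0 k
  have hKm1 : ∀ k ≤ 2 ^ s, K k ≤ Km := fun k hk =>
    Finset.single_le_sum (fun k _ => hK0 k) (mem_range.2 (Nat.lt_succ_of_le hk))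
  obtain ⟨w1, hw1⟩ := hSing Km ε1 hKm0 he0
  obtain ⟨D0, hD0⟩ : ∃ D0 : ℕ, (C / (ε / 2)) ^ 2 ≤ D0 := exists_nat_ge _
  refine ⟨max w1 (2 * 2 ^ s), 2 * (2 * B + 2 ^ s) + B, max D0 1, ?_⟩
  intro W b hW D w hD hw hwD S
  have hD1 : 1 ≤ D := (le_max_right _ _).trans hD
  have hD2 : D0 ≤ D := (le_max_left _ _).trans hD
  have hD1' : (1 : ℝ) ≤ D := by exact_mod_cast hD1
  have hk : S.card ≤ 2 ^ s := by
    refine (Finset.card_le_univ S).trans ?_
    rw [Fintype.card_finset, Fintype.card_fin]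
  set Q := PW W w with hQ
  have hQ1 : ∀ p ∈ Q, p.Prime ∧ p ≤ w ∧ ¬ p ∣ W ∧ w1 < p ∧ 2 * 2 ^ s < p := by
    intro p hp
    rw [hQ, PW, mem_filter, mem_Icc] at hp
    have h1 : max w1 (2 * 2 ^ s) < p := by
      by_contra hcon
      exact hp.2.2 (hW p hp.2.1 (not_lt.1 hcon))
    exact ⟨hp.2.1, hp.1.2, hp.2.2, (le_max_left _ _).trans_lt h1, (le_max_right _ _).trans_lt h1⟩
  have hw0 : (1 : ℝ) ≤ w := by exact_mod_cast (by omega : 1 ≤ w)
  have hg0 : ∀ p, 0 ≤ gg W b S p := fun p => by unfold gg; positivity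
  have hgk : ∀ p ∈ Q, gg W b S p ≤ (S.card : ℝ) / p ∧
      (S.card : ℝ) / p - (S.card : ℝ) ^ 2 / (p : ℝ) ^ 2 ≤ gg W b S p := fun p hp =>
    hLocal s W b S p (hQ1 p hp).1 (hQ1 p hp).2.2.1
  have hkR : (S.card : ℝ) ≤ 2 ^ s := by exact_mod_cast hk
  have hg : ∀ p ∈ Q, 0 ≤ gg W b S p ∧ gg W b S p ≤ 2 ^ s / p ∧ gg W b S p ≤ 1 / 2 := by
    intro p hp
    obtain ⟨h1, h2, h3, h4, h5⟩ := hQ1 p hp
    have hp0 : (0 : ℝ) < p := by exact_mod_cast h1.pos
    have h6 : gg W b S p ≤ 2 ^ s / p :=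
      (hgk p hp).1.trans (div_le_div_of_nonneg_right hkR hp0.le)
    refine ⟨hg0 p, h6, h6.trans ?_⟩
    rw [div_le_div_iff₀ hp0 two_pos]
    have : (2 * 2 ^ s : ℝ) < p := by exact_mod_cast h5
    linarith
  set N : ℝ := ((cube s D).card : ℝ) with hN
  have hN0 : 0 ≤ N := Nat.cast_nonneg _
  have hN1 : N ≤ 2 ^ s * (D : ℝ) ^ (s + 1) := pr_card s D
  have hFL1 := hB w hw Q (fun p hp => ⟨(hQ1 p hp).1, (hQ1 p hp).2.1⟩) (gg W b S) hg
    ((Fin s → ℤ) × ℤ) (cube s D) (hit W b S) N (C * (w : ℝ) ^ B * (D : ℝ) ^ s) hN0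
    (by positivity) (by
      intro T hT hTB
      have hTp : ∀ p ∈ T, p.Prime ∧ ¬ p ∣ W := fun p hp =>
        ⟨(hQ1 p (hT hp)).1, (hQ1 p (hT hp)).2.2.1⟩
      have hwB : w ^ B ≤ D := le_trans (Nat.pow_le_pow_right (by omega) (by omega)) hwD
      refine (hC D W b S T hTp (hTB.trans hwB)).trans ?_
      refine mul_le_mul_of_nonneg_right (mul_le_mul_of_nonneg_left ?_ hC0) (by positivity)
      have h7 : S.card ^ T.card ≤ ∏ p ∈ T, p := by
        rw [← Finset.prod_const]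
        refine Finset.prod_le_prod' fun p hp => ?_
        have := (hQ1 p (hT hp)).2.2.2.2
        omega
      exact_mod_cast h7.trans hTB)
  -- the ratio
  set G : ℝ := ∏ p ∈ Q, (1 - gg W b S p) with hG
  have hVpos : 0 < V W w := lt_of_lt_of_le (by positivity) (pr_V W w (by omega))
  have hρ : |G * (1 / V W w) ^ S.card - 1| ≤ ε1 := by
    have h8 := hw1 Q (fun p hp => (hQ1 p hp).2.2.2.1)
      (fun p => (1 - gg W b S p) / (1 - 1 / (p : ℝ)) ^ S.card) (by
        intro p hp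
        obtain ⟨h1, h2, h3, h4, h5⟩ := hQ1 p hp
        refine (hK S.card p (gg W b S p) (by omega) h1.two_le (hgk p hp).1 (hgk p hp).2).trans ?_
        exact div_le_div_of_nonneg_right (hKm1 _ hk) (by positivity))
    have h9 : ∏ p ∈ Q, (1 - gg W b S p) / (1 - 1 / (p : ℝ)) ^ S.card =
        G * (1 / V W w) ^ S.card := by
      rw [Finset.prod_div_distrib, Finset.prod_pow, one_div_pow, V, ← hQ, ← hG, mul_one_div]
    rwa [h9] at h8
  -- the sum
  set v : ℝ := (1 / V W w) ^ S.card with hv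
  have hv0 : 0 < v := by positivity
  have hsum : ∑ x ∈ cube s D, ∏ ω ∈ S, nu W b w (vert x.1 x.2 ω) =
      v * (((cube s D).filter (fun x => ∀ p ∈ Q, ¬ hit W b S p x)).card : ℝ) := by
    simp only [pr_prod]
    rw [← Finset.sum_filter, Finset.sum_const, nsmul_eq_mul, mul_comm]
  set M : ℝ := (((cube s D).filter (fun x => ∀ p ∈ Q, ¬ hit W b S p x)).card : ℝ) with hM
  rw [hsum]
  have hv1 : v ≤ (w : ℝ) ^ (2 ^ s) := by
    have h10 : 1 / V W w ≤ w := by
      rw [div_le_iff₀ hVpos]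
      have := pr_V W w (by omega)
      rw [div_le_iff₀ (by linarith)] at this
      linarith
    calc v ≤ (w : ℝ) ^ S.card := pow_le_pow_left₀ (by positivity) h10 _
      _ ≤ (w : ℝ) ^ (2 ^ s) := pow_le_pow_right₀ hw0 hk
  -- the error term
  have herr : v * ((w : ℝ) ^ B * (C * (w : ℝ) ^ B * (D : ℝ) ^ s)) ≤ ε / 2 * (D : ℝ) ^ (s + 1) := by
    set y : ℝ := (w : ℝ) ^ (2 * B + 2 ^ s) with hy
    have hy0 : 0 ≤ y := by positivity
    have hy1 : y ^ 2 ≤ D := by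
      have h11 : w ^ (2 * (2 * B + 2 ^ s)) ≤ D :=
        le_trans (Nat.pow_le_pow_right (by omega) (by omega)) hwD
      rw [hy, ← pow_mul, mul_comm (2 * B + 2 ^ s) 2]
      exact_mod_cast h11
    have hCy : C * y ≤ ε / 2 * D := by
      have h12 : (C / (ε / 2)) ^ 2 ≤ D := hD0.trans (by exact_mod_cast hD2)
      rw [div_pow, div_le_iff₀ (by positivity)] at h12
      have h13 : (C * y) ^ 2 ≤ (ε / 2 * D) ^ 2 := by
        rw [mul_pow, mul_pow]
        calc C ^ 2 * y ^ 2 ≤ (D * (ε / 2) ^ 2) * D := mul_le_mul h12 hy1 (by positivity)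
              (by positivity)
          _ = (ε / 2) ^ 2 * (D : ℝ) ^ 2 := by ring
      exact (pow_le_pow_iff_left₀ (by positivity) (by positivity) two_ne_zero).1 h13
    calc v * ((w : ℝ) ^ B * (C * (w : ℝ) ^ B * (D : ℝ) ^ s))
        ≤ (w : ℝ) ^ (2 ^ s) * ((w : ℝ) ^ B * (C * (w : ℝ) ^ B * (D : ℝ) ^ s)) :=
          mul_le_mul_of_nonneg_right hv1 (by positivity)
      _ = (C * y) * (D : ℝ) ^ s := by
          rw [hy, pow_add, two_mul, pow_add]
          ring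
      _ ≤ (ε / 2 * D) * (D : ℝ) ^ s := mul_le_mul_of_nonneg_right hCy (by positivity)
      _ = ε / 2 * (D : ℝ) ^ (s + 1) := by ring
  have hG1 : G * v ≤ 2 := by
    have := (abs_le.1 hρ).2
    linarith
  have hG0 : 0 ≤ G * v := by
    have := (abs_le.1 hρ).1
    linarith
  calc |v * M - N| = |v * (M - N * G) + N * (G * v - 1)| := by
        congr 1
        ring
    _ ≤ |v * (M - N * G)| + |N * (G * v - 1)| := abs_add_le _ _
    _ = v * |M - N * G| + N * |G * v - 1| := by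
        rw [abs_mul, abs_mul, abs_of_pos hv0, abs_of_nonneg hN0]
    _ ≤ v * (ε1 * (N * G) + (w : ℝ) ^ B * (C * (w : ℝ) ^ B * (D : ℝ) ^ s)) + N * ε1 :=
        add_le_add (mul_le_mul_of_nonneg_left hFL1 hv0.le)
          (mul_le_mul_of_nonneg_left hρ hN0)
    _ = ε1 * N * (G * v) + N * ε1 + v * ((w : ℝ) ^ B * (C * (w : ℝ) ^ B * (D : ℝ) ^ s)) := by
        ring
    _ ≤ ε1 * N * 2 + N * ε1 + ε / 2 * (D : ℝ) ^ (s + 1) := by
        refine add_le_add (add_le_add ?_ le_rfl) herr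
        exact mul_le_mul_of_nonneg_left hG1 (by positivity)
    _ = 3 * ε1 * N + ε / 2 * (D : ℝ) ^ (s + 1) := by ring
    _ ≤ 3 * ε1 * (2 ^ s * (D : ℝ) ^ (s + 1)) + ε / 2 * (D : ℝ) ^ (s + 1) := by
        refine add_le_add (mul_le_mul_of_nonneg_left hN1 (by positivity)) le_rfl
    _ = (ε1 * (6 * 2 ^ s)) / 2 * (D : ℝ) ^ (s + 1) + ε / 2 * (D : ℝ) ^ (s + 1) := by ring
    _ ≤ ε / 2 * (D : ℝ) ^ (s + 1) + ε / 2 * (D : ℝ) ^ (s + 1) := by
        refine add_le_add (mul_le_mul_of_nonneg_right ?_ (by positivity)) le_rfl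
        linarith
    _ = ε * (D : ℝ) ^ (s + 1) := by ring

end Pool.Agent.Helper18.TR
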