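import Pool.Agent.Helper18.TR.St

/-! # Module RG: the sum of `1/p` over one range -/

set_option autoImplicit false

namespace Pool.Agent.Helper18.TR

open Finset Pool.Agent.Helper18.ED

theorem rg_idx {w p : ℕ} (hp : p.Prime) (hpw : p ≤ w) :
    p ^ (2 ^ idx w p) ≤ w ∧ w < p ^ (2 ^ (idx w p + 1)) := by
  have hw : w ≠ 0 := by
    have := hp.two_le
    omega
  have hn : Nat.log p w ≠ 0 := (Nat.log_pos hp.one_lt hpw).ne'
  constructor
  · calc p ^ (2 ^ idx w p) ≤ p ^ (Nat.log p w) :=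
        Nat.pow_le_pow_right hp.pos (Nat.pow_log_le_self 2 hn)
      _ ≤ w := Nat.pow_log_le_self p hw
  · calc w < p ^ (Nat.log p w + 1) := Nat.lt_pow_succ_log_self hp.one_lt w
      _ ≤ p ^ (2 ^ (idx w p + 1)) :=
        Nat.pow_le_pow_right hp.pos (Nat.lt_pow_succ_log_self (by norm_num) _)

theorem pf_Range (hM : StMertens) : StRange := by
  obtain ⟨C, hC1, hC⟩ := hM 2
  refine ⟨1 + C, by linarith, fun w Q hQ i => ?_⟩
  rcases (Qi w Q i).eq_empty_or_nonempty with he | hne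
  · rw [he, Finset.sum_empty]
    linarith
  set p0 := (Qi w Q i).min' hne with hp0
  have h0 : p0 ∈ Qi w Q i := Finset.min'_mem _ hne
  have hmem : ∀ p ∈ Qi w Q i, p.Prime ∧ p ≤ w ∧ idx w p = i := by
    intro p hp
    rw [Qi, mem_filter] at hp
    exact ⟨(hQ p hp.1).1, (hQ p hp.1).2, hp.2⟩
  obtain ⟨h1, h2, h3⟩ := hmem p0 h0
  have hsub : Qi w Q i ⊆ {p0} ∪ pri p0 (p0 ^ 2) := by
    intro p hp
    obtain ⟨g1, g2, g3⟩ := hmem p hp
    rw [mem_union, mem_singleton, pri, mem_filter, mem_Ioc]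
    rcases (Finset.min'_le _ p hp).eq_or_lt with h | h
    · left
      exact h.symm
    · right
      refine ⟨⟨h, ?_⟩, g1⟩
      have e1 := (rg_idx g1 g2).1
      have e2 := (rg_idx h1 h2).2
      rw [g3] at e1
      rw [h3] at e2
      have e3 : p ^ (2 ^ i) < (p0 ^ 2) ^ (2 ^ i) := by
        rw [← pow_mul, show 2 * 2 ^ i = 2 ^ (i + 1) by ring]
        exact e1.trans_lt e2
      exact (lt_of_pow_lt_pow_left₀ _ (Nat.zero_le _) e3).le
  have hp0' : (1 : ℝ) ≤ (p0 : ℝ) := by exact_mod_cast h1.one_lt.le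
  calc ∑ p ∈ Qi w Q i, 1 / (p : ℝ) ≤ ∑ p ∈ {p0} ∪ pri p0 (p0 ^ 2), 1 / (p : ℝ) :=
        Finset.sum_le_sum_of_subset_of_nonneg hsub fun _ _ _ => by positivity
    _ ≤ ∑ p ∈ {p0}, 1 / (p : ℝ) + ∑ p ∈ pri p0 (p0 ^ 2), 1 / (p : ℝ) := by
        rw [← Finset.sum_union_inter]
        exact le_add_of_nonneg_right (Finset.sum_nonneg fun _ _ => by positivity)
    _ ≤ 1 + C := by
        refine add_le_add ?_ (hC p0 h1.two_le)
        rw [Finset.sum_singleton, div_le_one (by linarith)]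
        exact hp0'

end Pool.Agent.Helper18.TR
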