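import Pool.Agent.Helper18.TR.St

/-! Module SC: choice of the scale. -/

namespace Pool.Agent.Helper18.TR

open Finset Pool.Agent.Helper18.ED

lemma sc_harm (a : ℕ) (ha : 1 ≤ a) (b : ℕ) (hab : a ≤ b) :
    Real.log b - Real.log a ≤ ∑ D ∈ Ico a b, 1 / (D : ℝ) := by
  induction b, hab using Nat.le_induction with
  | base => simp
  | succ n hn ih =>
    rw [Finset.sum_Ico_succ_top hn]
    have hn0 : (0 : ℝ) < n := by exact_mod_cast (by omega : 0 < n)
    have h1 : Real.log ((n + 1 : ℕ) : ℝ) - Real.log n ≤ 1 / (n : ℝ) := by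
      rw [← Real.log_div (by positivity) (by positivity)]
      have h2 := Real.log_le_sub_one_of_pos (x := ((n + 1 : ℕ) : ℝ) / n) (by positivity)
      have h3 : ((n + 1 : ℕ) : ℝ) / n - 1 = 1 / n := by
        push_cast
        field_simp
        ring
      linarith
    linarith

lemma sc_sq (m : ℕ) (hm : 1 ≤ m) (N : ℕ) (hN : m ≤ N) :
    ∑ D ∈ Ico m N, 1 / (D : ℝ) ^ 2 ≤ 2 / (m : ℝ) - 2 / (N : ℝ) := by
  induction N, hN using Nat.le_induction with
  | base => simp
  | succ n hn ih =>
    rw [Finset.sum_Ico_succ_top hn]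
    have hn1 : (1 : ℝ) ≤ n := by exact_mod_cast (by omega : 1 ≤ n)
    have h1 : 1 / (n : ℝ) ^ 2 ≤ 2 / (n : ℝ) - 2 / ((n + 1 : ℕ) : ℝ) := by
      push_cast
      rw [div_sub_div _ _ (by positivity) (by positivity), div_le_div_iff₀ (by positivity)
        (by positivity)]
      nlinarith [sq_nonneg ((n : ℝ)), mul_nonneg (by positivity : (0 : ℝ) ≤ (n : ℝ) ^ 2)
        (by linarith : (0 : ℝ) ≤ (n : ℝ) - 1)]
    linarith

lemma sc_TV_nonneg (P : Set ℕ → ℝ) (f : ℕ → ℤˣ) (m H M : ℕ) : 0 ≤ TV P f m H M := by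
  unfold TV
  exact Finset.sum_nonneg (fun _ _ => Finset.sum_nonneg (fun _ _ => abs_nonneg _))

/-- exchange of the order of summation -/
lemma sc_swap (a : ℕ → ℝ) (ha : ∀ d, 0 ≤ a d) (M N : ℕ) :
    ∑ D ∈ Ico M N, (1 / (D : ℝ) ^ 2) * ∑ d ∈ range D, a d ≤
      ∑ d ∈ range N, a d * (2 / ((d : ℝ) + 1)) := by
  have h1 : ∀ D ∈ Ico M N, (1 / (D : ℝ) ^ 2) * ∑ d ∈ range D, a d =
      ∑ d ∈ range N, if d < D then (1 / (D : ℝ) ^ 2) * a d else 0 := by
    intro D hD
    rw [Finset.mem_Ico] at hD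
    rw [← Finset.sum_filter, Finset.mul_sum]
    apply Finset.sum_congr _ (fun _ _ => rfl)
    ext d
    simp only [Finset.mem_range, Finset.mem_filter]
    omega
  rw [Finset.sum_congr rfl h1, Finset.sum_comm]
  apply Finset.sum_le_sum
  intro d hd
  rw [Finset.mem_range] at hd
  rw [← Finset.sum_filter]
  have h2 : ∑ D ∈ (Ico M N).filter (fun D => d < D), (1 / (D : ℝ) ^ 2) * a d =
      a d * ∑ D ∈ (Ico M N).filter (fun D => d < D), 1 / (D : ℝ) ^ 2 := by
    rw [Finset.mul_sum]
    exact Finset.sum_congr rfl (fun _ _ => mul_comm _ _)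
  rw [h2]
  apply mul_le_mul_of_nonneg_left _ (ha d)
  have h3 : ∑ D ∈ (Ico M N).filter (fun D => d < D), 1 / (D : ℝ) ^ 2 ≤
      ∑ D ∈ Ico (d + 1) N, 1 / (D : ℝ) ^ 2 := by
    apply Finset.sum_le_sum_of_subset_of_nonneg
    · intro D hD
      simp only [Finset.mem_filter, Finset.mem_Ico] at hD ⊢
      omega
    · intro _ _ _
      positivity
  have h4 := sc_sq (d + 1) (by omega) N (by omega)
  have h5 : (0 : ℝ) ≤ 2 / (N : ℝ) := by positivity
  push_cast at h4
  linarith

theorem pf_Scale (hmain : StMain) (hV : StVlow) : StScale := by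
  intro P hP f hf H W Bs ε hH hW hBs hε A₀ D₁
  obtain ⟨c, hc, hVc⟩ := hV
  set A := A₀ + 1 with hA
  have hWR : (1 : ℝ) ≤ W := by exact_mod_cast hW
  set K : ℝ := ∑ b ∈ Bs, 2 * ((W : ℝ) + b) with hK
  have hK0 : 0 ≤ K := Finset.sum_nonneg (fun b _ => by positivity)
  set δ : ℝ := ε * c / (2 * (K + 1)) with hδ
  have hδ0 : 0 < δ := by positivity
  obtain ⟨w₀, hw₀⟩ := hmain P hP f hf (2 * A + 2) H 1 hH le_rfl δ hδ0
  set w : ℕ := w₀ + D₁ + W + ∑ b ∈ Bs, b + 2 with hw
  have hw2 : 2 ≤ w := by omega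
  have hww : w₀ ≤ w := by omega
  have hwD : D₁ ≤ w := by omega
  have hwb : ∀ b ∈ Bs, W + b ≤ w := by
    intro b hb
    have : b ≤ ∑ b ∈ Bs, b :=
      Finset.single_le_sum (f := fun b : ℕ => b) (fun _ _ => Nat.zero_le _) hb
    omega
  have hwR : (2 : ℝ) ≤ w := by exact_mod_cast hw2
  have hlog : 0 < Real.log w := Real.log_pos (by linarith)
  have hVpos : 0 < V W w := lt_of_lt_of_le (by positivity) (hVc W w hw2)
  have hVinv : 1 / V W w ≤ Real.log w / c := by
    have h1 := hVc W w hw2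
    rw [div_le_iff₀ hlog] at h1
    rw [div_le_div_iff₀ hVpos hc]
    linarith
  by_contra hcon
  push Not at hcon
  have hbad : ∀ D ∈ Ico (w ^ A) (w ^ (2 * A)), ε * D < ∑ b ∈ Bs, ∑ d ∈ range D,
      nu W b w d * TV P f (W * d + b) H 1 := by
    intro D hD
    rw [Finset.mem_Ico] at hD
    have h1 : w ≤ w ^ A := by
      calc w = w ^ 1 := (pow_one w).symm
        _ ≤ w ^ A := Nat.pow_le_pow_right (by omega) (by omega)
    have h2 : w ^ A₀ ≤ w ^ A := Nat.pow_le_pow_right (by omega) (by omega)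
    obtain ⟨b, hb, hlt⟩ := hcon w D hw2 (by omega) (by omega)
    refine lt_of_lt_of_le hlt ?_
    have h0 : ∀ b' ∈ Bs, 0 ≤ ∑ d ∈ range D, nu W b' w d * TV P f (W * d + b') H 1 := by
      intro b' _
      apply Finset.sum_nonneg
      intro d _
      apply mul_nonneg _ (sc_TV_nonneg _ _ _ _ _)
      unfold nu
      split_ifs
      · positivity
      · exact le_rfl
    exact Finset.single_le_sum h0 hb
  have hwA : w ^ A < w ^ (2 * A) := Nat.pow_lt_pow_right (by omega) (by omega)
  have hwA1 : 1 ≤ w ^ A := Nat.one_le_pow _ _ (by omega)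
  -- lower bound
  have hlow : ε * Real.log w ≤ ∑ D ∈ Ico (w ^ A) (w ^ (2 * A)), (1 / (D : ℝ) ^ 2) * (ε * D) := by
    have h1 := sc_harm (w ^ A) hwA1 (w ^ (2 * A)) hwA.le
    have h2 : Real.log ((w ^ (2 * A) : ℕ) : ℝ) - Real.log ((w ^ A : ℕ) : ℝ) =
        A * Real.log w := by
      push_cast
      rw [Real.log_pow, Real.log_pow]
      push_cast
      ring
    have h3 : Real.log w ≤ A * Real.log w := by
      have : (1 : ℝ) ≤ A := by rw [hA]; push_cast; linarith [Nat.cast_nonneg (α := ℝ) A₀]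
      nlinarith
    have h4 : ∑ D ∈ Ico (w ^ A) (w ^ (2 * A)), (1 / (D : ℝ) ^ 2) * (ε * D) =
        ε * ∑ D ∈ Ico (w ^ A) (w ^ (2 * A)), 1 / (D : ℝ) := by
      rw [Finset.mul_sum]
      apply Finset.sum_congr rfl
      intro D hD
      rw [Finset.mem_Ico] at hD
      have : (0 : ℝ) < D := by exact_mod_cast (by omega : 0 < D)
      field_simp
    rw [h4]
    apply mul_le_mul_of_nonneg_left _ hε.le
    linarith
  have hlt : ∑ D ∈ Ico (w ^ A) (w ^ (2 * A)), (1 / (D : ℝ) ^ 2) * (ε * D) <
      ∑ D ∈ Ico (w ^ A) (w ^ (2 * A)), (1 / (D : ℝ) ^ 2) * ∑ b ∈ Bs, ∑ d ∈ range D,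
        nu W b w d * TV P f (W * d + b) H 1 := by
    apply Finset.sum_lt_sum_of_nonempty
    · rw [Finset.nonempty_Ico]; exact hwA
    · intro D hD
      have h := hbad D hD
      rw [Finset.mem_Ico] at hD
      have : (0 : ℝ) < D := by exact_mod_cast (by omega : 0 < D)
      exact mul_lt_mul_of_pos_left h (by positivity)
  -- upper bound for each `b`
  have hup : ∀ b ∈ Bs, ∑ D ∈ Ico (w ^ A) (w ^ (2 * A)), (1 / (D : ℝ) ^ 2) * ∑ d ∈ range D,
      nu W b w d * TV P f (W * d + b) H 1 ≤ 2 * ((W : ℝ) + b) * (Real.log w / c) * δ := by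
    intro b hb
    have hnn : ∀ d : ℕ, 0 ≤ nu W b w d * TV P f (W * d + b) H 1 := by
      intro d
      apply mul_nonneg _ (sc_TV_nonneg _ _ _ _ _)
      unfold nu
      split_ifs
      · positivity
      · exact le_rfl
    refine (sc_swap (fun d => nu W b w d * TV P f (W * d + b) H 1) hnn _ _).trans ?_
    -- the good `d`
    have hpt : ∀ d ∈ range (w ^ (2 * A)),
        nu W b w d * TV P f (W * d + b) H 1 * (2 / ((d : ℝ) + 1)) ≤
        if (∀ p ∈ PW W w, ¬ (p : ℤ) ∣ W * (d : ℤ) + b) then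
          2 * ((W : ℝ) + b) * (Real.log w / c) *
            ((1 / ((W * d + b : ℕ) : ℝ)) * TV P f (W * d + b) H 1) else 0 := by
      intro d hd
      unfold nu
      split_ifs with hrough
      · have hpos : 1 ≤ W * d + b := by
          by_contra h0
          have hb0 : b = 0 := by omega
          have hWd : W * d = 0 := by omega
          have hW1 : W = 1 := by
            have := hBs b hb
            rw [hb0, Nat.coprime_zero_left] at this
            exact this
          have h2 : 2 ∈ PW W w := by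
            simp only [PW, Finset.mem_filter, Finset.mem_Icc]
            refine ⟨⟨by norm_num, hw2⟩, Nat.prime_two, ?_⟩
            rw [hW1]; norm_num
          apply hrough 2 h2
          have : (W : ℤ) * (d : ℤ) + (b : ℤ) = ((W * d + b : ℕ) : ℤ) := by push_cast; ring
          rw [this, hWd, hb0]
          simp
        have hposR : (0 : ℝ) < ((W * d + b : ℕ) : ℝ) := by exact_mod_cast hpos
        have hTV := sc_TV_nonneg P f (W * d + b) H 1
        have h1 : 1 / ((d : ℝ) + 1) ≤ ((W : ℝ) + b) * (1 / ((W * d + b : ℕ) : ℝ)) := by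
          rw [mul_one_div, div_le_div_iff₀ (by positivity) hposR]
          push_cast
          have : (0 : ℝ) ≤ b * d := by positivity
          nlinarith
        calc 1 / V W w * TV P f (W * d + b) H 1 * (2 / ((d : ℝ) + 1))
            = 2 * (1 / V W w) * (1 / ((d : ℝ) + 1)) * TV P f (W * d + b) H 1 := by ring
          _ ≤ 2 * (Real.log w / c) * (((W : ℝ) + b) * (1 / ((W * d + b : ℕ) : ℝ))) *
              TV P f (W * d + b) H 1 := by
            apply mul_le_mul_of_nonneg_right _ hTV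
            apply mul_le_mul _ h1 (by positivity) (by positivity)
            exact mul_le_mul_of_nonneg_left hVinv (by norm_num)
          _ = _ := by ring
      · simp
    refine (Finset.sum_le_sum hpt).trans ?_
    rw [← Finset.sum_filter, ← Finset.mul_sum]
    apply mul_le_mul_of_nonneg_left _ (by positivity)
    refine le_trans ?_ (hw₀ w hww)
    -- injection into the rough numbers
    have himg : ∑ d ∈ (range (w ^ (2 * A))).filter
        (fun d : ℕ => ∀ p ∈ PW W w, ¬ (p : ℤ) ∣ W * (d : ℤ) + b),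
        (1 / ((W * d + b : ℕ) : ℝ)) * TV P f (W * d + b) H 1 =
        ∑ m ∈ ((range (w ^ (2 * A))).filter
          (fun d : ℕ => ∀ p ∈ PW W w, ¬ (p : ℤ) ∣ W * (d : ℤ) + b)).image (fun d => W * d + b),
          (1 / (m : ℝ)) * TV P f m H 1 := by
      rw [Finset.sum_image]
      intro x _ y _ hxy
      simp only [] at hxy
      have : W * x = W * y := by omega
      exact Nat.eq_of_mul_eq_mul_left (by omega) this
    rw [himg]
    apply Finset.sum_le_sum_of_subset_of_nonneg
    · intro m hm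
      rw [Finset.mem_image] at hm
      obtain ⟨d, hd, rfl⟩ := hm
      rw [Finset.mem_filter, Finset.mem_range] at hd
      obtain ⟨hdlt, hrough⟩ := hd
      have hnodvd : ∀ p, p.Prime → p ≤ w → ¬ p ∣ W * d + b := by
        intro p hp hpw hdvd
        by_cases hpW : p ∣ W
        · have h1 : p ∣ b := (Nat.dvd_add_right (Dvd.dvd.mul_right hpW d)).mp hdvd
          have h2 := Nat.dvd_gcd h1 hpW
          have h3 := hBs b hb
          rw [Nat.Coprime] at h3
          rw [h3] at h2
          exact hp.one_lt.ne' (Nat.dvd_one.mp h2)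
        · apply hrough p
          · simp only [PW, Finset.mem_filter, Finset.mem_Icc]
            exact ⟨⟨hp.one_le, hpw⟩, hp, hpW⟩
          · have : (W : ℤ) * (d : ℤ) + (b : ℤ) = ((W * d + b : ℕ) : ℤ) := by push_cast; ring
            rw [this]
            exact_mod_cast hdvd
      simp only [rough, Finset.mem_filter, Finset.mem_Icc]
      refine ⟨⟨?_, ?_⟩, ?_⟩
      · by_contra h0
        have h1 : W * d + b = 0 := by omega
        apply hnodvd 2 Nat.prime_two hw2
        rw [h1]
        exact dvd_zero 2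
      · have h1 := hwb b hb
        calc W * d + b ≤ W * w ^ (2 * A) + b * w ^ (2 * A) := by
              apply Nat.add_le_add
              · exact Nat.mul_le_mul_left _ hdlt.le
              · exact Nat.le_mul_of_pos_right _ (Nat.pos_of_ne_zero (by positivity))
          _ = (W + b) * w ^ (2 * A) := by ring
          _ ≤ w * w ^ (2 * A) := Nat.mul_le_mul_right _ h1
          _ = w ^ (2 * A + 1) := by ring
          _ ≤ w ^ (2 * A + 2) := Nat.pow_le_pow_right (by omega) (by omega)
      · intro p hp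
        rw [Nat.mem_primeFactors] at hp
        by_contra hle
        exact hnodvd p hp.1 (by omega) hp.2.1
    · intro m _ _
      have := sc_TV_nonneg P f m H 1
      positivity
  have htot : ∑ D ∈ Ico (w ^ A) (w ^ (2 * A)), (1 / (D : ℝ) ^ 2) * ∑ b ∈ Bs, ∑ d ∈ range D,
      nu W b w d * TV P f (W * d + b) H 1 ≤ K * (Real.log w / c) * δ := by
    have h1 : ∑ D ∈ Ico (w ^ A) (w ^ (2 * A)), (1 / (D : ℝ) ^ 2) * ∑ b ∈ Bs, ∑ d ∈ range D,
        nu W b w d * TV P f (W * d + b) H 1 =
        ∑ b ∈ Bs, ∑ D ∈ Ico (w ^ A) (w ^ (2 * A)), (1 / (D : ℝ) ^ 2) * ∑ d ∈ range D,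
          nu W b w d * TV P f (W * d + b) H 1 := by
      rw [Finset.sum_comm]
      apply Finset.sum_congr rfl
      intro D _
      rw [Finset.mul_sum]
    rw [h1, hK, Finset.sum_mul, Finset.sum_mul]
    exact Finset.sum_le_sum hup
  have hfin : K * (Real.log w / c) * δ ≤ ε * Real.log w / 2 := by
    rw [hδ]
    have h1 : K * (Real.log w / c) * (ε * c / (2 * (K + 1))) =
        (ε * Real.log w / 2) * (K / (K + 1)) := by
      field_simp
    rw [h1]
    apply mul_le_of_le_one_right (by positivity)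
    rw [div_le_one (by positivity)]
    linarith
  have hpos : 0 < ε * Real.log w := by positivity
  linarith

end Pool.Agent.Helper18.TR
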