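import Pool.Agent.Helper18.TR.St

/-! Module SI: singular products. -/

namespace Pool.Agent.Helper18.TR

open Finset Pool.Agent.Helper18.ED

theorem pf_Sing : StSing := by
  intro K ε hK hε
  have hs : Summable fun n : ℕ => K / (n : ℝ) ^ 2 := by
    have := (Real.summable_one_div_nat_pow.2 (show 1 < 2 by norm_num)).mul_left K
    simpa only [mul_one_div] using this
  have hη : 0 < Real.log (1 + ε) := Real.log_pos (by linarith)
  obtain ⟨s, hs⟩ := summable_iff_vanishing_norm.1 hs (Real.log (1 + ε)) hη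
  refine ⟨s.sup id, fun Q hQ t ht => ?_⟩
  have hd : Disjoint Q s := by
    rw [Finset.disjoint_left]
    intro p hp hps
    have h1 := hQ p hp
    have h2 : p ≤ s.sup id := Finset.le_sup (f := id) hps
    omega
  have h1 := hs Q hd
  rw [Real.norm_of_nonneg (Finset.sum_nonneg fun p _ => by positivity)] at h1
  have h2 : |∏ p ∈ Q, t p - 1| ≤ Real.exp (∑ p ∈ Q, |t p - 1|) - 1 := by
    have h3 := Finset.norm_prod_one_add_sub_one_le Q (fun p => t p - 1)
    simpa [Real.norm_eq_abs] using h3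
  have h4 : ∑ p ∈ Q, |t p - 1| ≤ Real.log (1 + ε) :=
    (Finset.sum_le_sum ht).trans h1.le
  have h5 : Real.exp (∑ p ∈ Q, |t p - 1|) ≤ 1 + ε := by
    calc Real.exp (∑ p ∈ Q, |t p - 1|) ≤ Real.exp (Real.log (1 + ε)) := Real.exp_le_exp.2 h4
      _ = 1 + ε := Real.exp_log (by linarith)
  linarith

theorem si_pow_le (k : ℕ) (x : ℝ) (h0 : 0 ≤ x) (h1 : x ≤ 1) :
    (1 - x) ^ k ≤ 1 - k * x + (k : ℝ) ^ 2 * x ^ 2 := by
  induction k with
  | zero => simp
  | succ k ih =>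
    rw [pow_succ]
    have h2 : (1 - x) ^ k * (1 - x) ≤ (1 - k * x + (k : ℝ) ^ 2 * x ^ 2) * (1 - x) :=
      mul_le_mul_of_nonneg_right ih (by linarith)
    refine h2.trans ?_
    push_cast
    have h3 : 0 ≤ (k : ℝ) := Nat.cast_nonneg k
    have h4 : 0 ≤ (k : ℝ) ^ 2 * x ^ 3 := by positivity
    have h5 : 0 ≤ (k : ℝ) * x ^ 2 := by positivity
    nlinarith [sq_nonneg x]

theorem pf_Ratio : StRatio := by
  intro k
  refine ⟨2 * (k : ℝ) ^ 2, by positivity, ?_⟩
  intro p g hkp hp h1 h2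
  have hp0 : (0 : ℝ) < p := by
    have : (2 : ℝ) ≤ p := by exact_mod_cast hp
    linarith
  set x : ℝ := 1 / (p : ℝ) with hx
  have hx0 : 0 < x := by positivity
  have hx1 : x ≤ 1 := by
    rw [hx, div_le_one hp0]
    have : (2 : ℝ) ≤ p := by exact_mod_cast hp
    linarith
  have hkx : (k : ℝ) * x ≤ 1 / 2 := by
    rw [hx, mul_one_div, div_le_iff₀ hp0]
    have : (2 : ℝ) * k ≤ p := by exact_mod_cast hkp
    linarith
  have e1 : (k : ℝ) / p = k * x := by rw [hx, mul_one_div]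
  have e2 : (k : ℝ) ^ 2 / (p : ℝ) ^ 2 = (k : ℝ) ^ 2 * x ^ 2 := by
    rw [hx, one_div, inv_pow, div_eq_mul_inv]
  rw [e1] at h1 h2
  rw [e2] at h2
  have h3 := si_pow_le k x hx0.le hx1
  have h4 : 1 - k * x ≤ (1 - x) ^ k := by
    have := one_add_mul_le_pow (a := -x) (by linarith) k
    have h5 : 1 + (k : ℝ) * -x = 1 - k * x := by ring
    rw [h5] at this
    simpa [sub_eq_add_neg] using this
  have h6 : 0 < (1 - x) ^ k := by linarith
  have h7 : (1 - g) / (1 - x) ^ k - 1 = (1 - g - (1 - x) ^ k) / (1 - x) ^ k := by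
    field_simp
  have h8 : 2 * (k : ℝ) ^ 2 / (p : ℝ) ^ 2 = 2 * ((k : ℝ) ^ 2 * x ^ 2) := by
    rw [mul_div_assoc, e2]
  rw [h7, abs_div, abs_of_pos h6, div_le_iff₀ h6, h8, abs_le]
  have h9 : (0 : ℝ) ≤ (k : ℝ) ^ 2 * x ^ 2 := by positivity
  constructor <;> nlinarith

end Pool.Agent.Helper18.TR
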