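import Pool.Agent.Helper18.TR.St

/-! Module TF: transfer. -/

namespace Pool.Agent.Helper18.TR

open Finset Pool.Agent.Helper18.ED

/-- the factors of the indicator function of a window -/
noncomputable def tf_g (f : ℕ → ℤˣ) (b H : ℕ) (x : Fin H → ℤˣ) (j : ℕ) (m : ℤ) : ℝ :=
  if h : j < H then (if 0 ≤ m + b * j ∧ f (m + b * j).toNat = x ⟨j, h⟩ then 1 else 0) else 0

theorem tf_g_abs (f : ℕ → ℤˣ) (b H : ℕ) (x : Fin H → ℤˣ) (j : ℕ) (m : ℤ) :
    |tf_g f b H x j m| ≤ 1 := by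
  unfold tf_g
  split_ifs <;> simp

theorem tf_prod (f : ℕ → ℤˣ) (W b H : ℕ) (x : Fin H → ℤˣ) (d n : ℕ) :
    ∏ j ∈ range H, tf_g f b H x j ((n : ℤ) + j * (W * (d : ℤ))) =
      (if ED.W f (W * d + b) H n = x then 1 else 0 : ℝ) := by
  have h1 : ∀ j (hj : j < H), tf_g f b H x j ((n : ℤ) + j * (W * (d : ℤ))) =
      (if f (n + (W * d + b) * j) = x ⟨j, hj⟩ then 1 else 0 : ℝ) := by
    intro j hj
    have e1 : (n : ℤ) + j * (W * (d : ℤ)) + b * j = ((n + (W * d + b) * j : ℕ) : ℤ) := by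
      push_cast
      ring
    unfold tf_g
    rw [dif_pos hj, e1, Int.toNat_natCast]
    simp only [Int.natCast_nonneg, true_and]
  split_ifs with h
  · refine Finset.prod_eq_one fun j hj => ?_
    rw [mem_range] at hj
    rw [h1 j hj, if_pos]
    exact congrFun h ⟨j, hj⟩
  · obtain ⟨j, hj⟩ : ∃ j, ED.W f (W * d + b) H n j ≠ x j := by
      by_contra hcon
      push Not at hcon
      exact h (funext hcon)
    refine Finset.prod_eq_zero (mem_range.2 j.2) ?_
    rw [h1 j.1 j.2, if_neg]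
    exact hj

theorem pf_Transfer (hU : StUnu) (hG : StGvN) : StTransfer := by
  intro H ε hH hε
  obtain ⟨r, rfl⟩ : ∃ r, H = r + 1 := ⟨H - 1, by omega⟩
  obtain ⟨w₀, A, D₀, hmain⟩ := hU (r + 1) ((ε / 2) ^ (2 ^ (r + 1))) (by positivity)
  refine ⟨w₀, A, D₀, ?_⟩
  intro μ hμ f W b hW D w hD hw hA x
  have h1 := hmain W b hW D w hD hw hA
  have h2 := hG μ hμ r D W (tf_g f b (r + 1) x) (tf_g_abs f b (r + 1) x) (th W b w D)
    (fun d hd => by rw [th, if_neg hd])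
  -- the sum over integers
  have h3 : ∑ d ∈ Ico (0 : ℤ) D, th W b w D d * μ (fun n => ∏ j ∈ range (r + 1),
      tf_g f b (r + 1) x j ((n : ℤ) + j * (W * d))) =
      ∑ d ∈ range D, (nu W b w d - 1) * prob μ {n | ED.W f (W * d + b) (r + 1) n = x} := by
    refine Finset.sum_nbij' (fun d => d.toNat) (fun d => (d : ℤ)) ?_ ?_ ?_ ?_ ?_
    · intro d hd
      rw [mem_Ico] at hd
      rw [mem_range]
      omega
    · intro d hd
      rw [mem_range] at hd
      rw [mem_Ico]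
      omega
    · intro d hd
      rw [mem_Ico] at hd
      exact Int.toNat_of_nonneg hd.1
    · intro d hd
      exact Int.toNat_natCast d
    · intro d hd
      rw [mem_Ico] at hd
      obtain ⟨e, rfl⟩ : ∃ e : ℕ, d = e := ⟨d.toNat, (Int.toNat_of_nonneg hd.1).symm⟩
      rw [Int.toNat_natCast, th, if_pos ⟨hd.1, hd.2⟩]
      congr 1
      unfold prob
      congr 1
      funext n
      rw [tf_prod f W b (r + 1) x e n]
      by_cases hx : ED.W f (W * e + b) (r + 1) n = x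
      · rw [if_pos hx, if_pos (show n ∈ {n | ED.W f (W * e + b) (r + 1) n = x} from hx)]
      · rw [if_neg hx, if_neg (show n ∉ {n | ED.W f (W * e + b) (r + 1) n = x} from hx)]
  rw [h3] at h2
  set S := ∑ d ∈ range D, (nu W b w d - 1) * prob μ {n | ED.W f (W * d + b) (r + 1) n = x} with hS
  have hD0 : (0 : ℝ) ≤ D := Nat.cast_nonneg D
  have hexp : r + 2 ≤ 2 ^ (r + 1) := by
    have : r + 1 < 2 ^ (r + 1) := Nat.lt_two_pow_self
    omega
  have h4 : |S| ^ (2 ^ (r + 1)) ≤ (ε * D) ^ (2 ^ (r + 1)) := by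
    calc |S| ^ (2 ^ (r + 1)) ≤ (2 * (D : ℝ)) ^ (2 ^ (r + 1) - (r + 2)) * U D (r + 1) (th W b w D) := h2
      _ ≤ (2 * (D : ℝ)) ^ (2 ^ (r + 1) - (r + 2)) *
          ((ε / 2) ^ (2 ^ (r + 1)) * (D : ℝ) ^ (r + 1 + 1)) := by gcongr
      _ ≤ (2 * (D : ℝ)) ^ (2 ^ (r + 1) - (r + 2)) *
          ((ε / 2) ^ (2 ^ (r + 1)) * (2 * (D : ℝ)) ^ (r + 1 + 1)) := by
          gcongr
          linarith
      _ = (ε / 2) ^ (2 ^ (r + 1)) * ((2 * (D : ℝ)) ^ (2 ^ (r + 1) - (r + 2)) *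
          (2 * (D : ℝ)) ^ (r + 2)) := by ring
      _ = (ε * D) ^ (2 ^ (r + 1)) := by
          rw [← pow_add, Nat.sub_add_cancel hexp, ← mul_pow]
          congr 1
          ring
  exact (pow_le_pow_iff_left₀ (abs_nonneg _) (by positivity) (by positivity)).1 h4

end Pool.Agent.Helper18.TR
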