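import Pool.Agent.Helper18.TR.St

/-! # Module UC: Gowers sums and cubes -/

set_option autoImplicit false

namespace Pool.Agent.Helper18.TR

open Finset Pool.Agent.Helper18.ED

theorem uc_prod (s : ℕ) (F : Finset (Fin (s + 1)) → ℝ) :
    ∏ ω : Finset (Fin (s + 1)), F ω = ∏ ω : Finset (Fin s),
      (F (ω.map (Fin.succEmb s)) * F (insert 0 (ω.map (Fin.succEmb s)))) := by
  have h0 : (0 : Fin (s + 1)) ∉ (univ : Finset (Fin s)).map (Fin.succEmb s) := by
    simp [Fin.succ_ne_zero]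
  have h1 : (univ : Finset (Fin (s + 1))) = insert 0 ((univ : Finset (Fin s)).map (Fin.succEmb s)) := by
    ext i
    refine Fin.cases ?_ (fun j => ?_) i <;> simp
  have h2 : ∀ G : Finset (Fin (s + 1)) → ℝ,
      ∏ t ∈ ((univ : Finset (Fin s)).map (Fin.succEmb s)).powerset, G t =
        ∏ ω : Finset (Fin s), G (ω.map (Fin.succEmb s)) := by
    intro G
    symm
    refine Finset.prod_nbij (fun ω => ω.map (Fin.succEmb s)) ?_ ?_ ?_ ?_
    · intro ω _
      rw [mem_powerset]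
      exact Finset.map_subset_map.2 (subset_univ _)
    · intro a _ b _ hab
      exact Finset.map_injective _ hab
    · intro t ht
      rw [mem_coe, mem_powerset, Finset.subset_map_iff] at ht
      obtain ⟨u, -, rfl⟩ := ht
      exact ⟨u, by simp, rfl⟩
    · intro ω _
      rfl
  rw [← Finset.powerset_univ, h1, Finset.prod_powerset_insert h0, h2, h2, ← Finset.prod_mul_distrib]

theorem uc_sum (s D : ℕ) (G : (Fin (s + 1) → ℤ) → ℝ) :
    ∑ h ∈ Fintype.piFinset (fun _ : Fin (s + 1) => Ioo (-(D : ℤ)) D), G h =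
      ∑ h0 ∈ Ioo (-(D : ℤ)) D, ∑ h ∈ Fintype.piFinset (fun _ : Fin s => Ioo (-(D : ℤ)) D),
        G (Fin.cons h0 h : Fin (s + 1) → ℤ) := by
  rw [← Finset.sum_product']
  symm
  refine Finset.sum_nbij' (fun x => (Fin.cons x.1 x.2 : Fin (s + 1) → ℤ))
    (fun h => (h 0, fun i => h i.succ)) ?_ ?_ ?_ ?_ ?_
  · rintro ⟨h0, h⟩ hx
    rw [mem_product, Fintype.mem_piFinset] at hx
    rw [Fintype.mem_piFinset]
    intro i
    refine Fin.cases ?_ (fun j => ?_) i
    · simpa using hx.1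
    · simpa using hx.2 j
  · intro h hh
    rw [Fintype.mem_piFinset] at hh
    rw [mem_product, Fintype.mem_piFinset]
    exact ⟨hh 0, fun i => hh i.succ⟩
  · rintro ⟨h0, h⟩ _
    simp
  · intro h _
    exact Fin.cons_self_tail h
  · intro x _
    rfl

theorem uc_vert0 {s : ℕ} (h0 : ℤ) (h : Fin s → ℤ) (d : ℤ) (ω : Finset (Fin s)) :
    vert (Fin.cons h0 h : Fin (s + 1) → ℤ) d (ω.map (Fin.succEmb s)) = vert h d ω := by
  simp [vert, Finset.sum_map]

theorem uc_vert1 {s : ℕ} (h0 : ℤ) (h : Fin s → ℤ) (d : ℤ) (ω : Finset (Fin s)) :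
    vert (Fin.cons h0 h : Fin (s + 1) → ℤ) d (insert 0 (ω.map (Fin.succEmb s))) =
      vert h d ω + h0 := by
  have h1 : (0 : Fin (s + 1)) ∉ ω.map (Fin.succEmb s) := by
    simp [Fin.succ_ne_zero]
  rw [vert, vert, Finset.sum_insert h1, Finset.sum_map]
  simp only [Fin.cons_zero, Fin.coe_succEmb, Fin.cons_succ]
  ring

theorem uc_full (s D : ℕ) (θ : ℤ → ℝ) :
    U D s θ = ∑ h ∈ Fintype.piFinset (fun _ : Fin s => Ioo (-(D : ℤ)) D),
      ∑ d ∈ Ico (0 : ℤ) D, ∏ ω : Finset (Fin s), θ (vert h d ω) := by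
  induction s generalizing θ with
  | zero =>
    rw [U]
    have h1 : ∀ ω : Finset (Fin 0), ω = ∅ := fun ω => Finset.eq_empty_of_isEmpty ω
    simp [vert, h1]
  | succ s ih =>
    rw [U, uc_sum]
    refine Finset.sum_congr rfl fun h0 _ => ?_
    rw [ih]
    refine Finset.sum_congr rfl fun h _ => Finset.sum_congr rfl fun d _ => ?_
    rw [uc_prod]
    refine Finset.prod_congr rfl fun ω _ => ?_
    rw [uc_vert0, uc_vert1]

theorem pf_Ucube : StUcube := by
  intro s D θ hθ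
  rw [uc_full, cube, Finset.sum_filter_of_ne, Finset.sum_product]
  intro x _ hx ω
  by_contra hcon
  exact hx (Finset.prod_eq_zero (mem_univ ω) (hθ _ hcon))

end Pool.Agent.Helper18.TR
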