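import Pool.Agent.Helper18.TR.St

/-! # Module UN: the Gowers norm of `nu - 1` -/

set_option autoImplicit false

namespace Pool.Agent.Helper18.TR

open Finset Pool.Agent.Helper18.ED

theorem pf_Unu (hU : StUcube) (hP : StPR) : StUnu := by
  intro s ε hε
  set Z : Finset (Finset (Finset (Fin s))) := (univ : Finset (Finset (Fin s))).powerset with hZ
  have hZ0 : 0 < Z.card := Finset.card_pos.2 ⟨∅, by simp [hZ]⟩
  have hZ0' : (0 : ℝ) < (Z.card : ℝ) := by exact_mod_cast hZ0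
  obtain ⟨w₀, A, D₀, h⟩ := hP s (ε / Z.card) (by positivity)
  refine ⟨w₀, A, D₀, fun W b hW D w hD hw hwD => ?_⟩
  have h1 := h W b hW D w hD hw hwD
  rw [hU s D (th W b w D) (fun d hd => by rw [th, if_neg hd])]
  have h2 : ∀ x ∈ cube s D, ∏ ω : Finset (Fin s), th W b w D (vert x.1 x.2 ω) =
      ∑ S ∈ Z, (∏ ω ∈ univ \ S, (-1 : ℝ)) * ∏ ω ∈ S, nu W b w (vert x.1 x.2 ω) := by
    intro x hx
    rw [cube, mem_filter] at hx
    have h3 : ∀ ω ∈ (univ : Finset (Finset (Fin s))), th W b w D (vert x.1 x.2 ω) =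
        nu W b w (vert x.1 x.2 ω) + (-1) := by
      intro ω _
      rw [th, if_pos (hx.2 ω)]
      ring
    rw [Finset.prod_congr rfl h3, Finset.prod_add]
    exact Finset.sum_congr rfl fun S _ => mul_comm _ _
  rw [Finset.sum_congr rfl h2, Finset.sum_comm]
  have h4 : ∑ S ∈ Z, (∏ ω ∈ univ \ S, (-1 : ℝ)) = 0 := by
    have h5 := Finset.prod_add (fun _ : Finset (Fin s) => (1 : ℝ)) (fun _ => (-1 : ℝ)) univ
    simp only [add_neg_cancel, Finset.prod_const_one, one_mul] at h5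
    rw [hZ, ← h5]
    exact Finset.prod_eq_zero (mem_univ ∅) rfl
  calc ∑ S ∈ Z, ∑ x ∈ cube s D, (∏ ω ∈ univ \ S, (-1 : ℝ)) *
        ∏ ω ∈ S, nu W b w (vert x.1 x.2 ω)
      = ∑ S ∈ Z, (∏ ω ∈ univ \ S, (-1 : ℝ)) *
          (∑ x ∈ cube s D, ∏ ω ∈ S, nu W b w (vert x.1 x.2 ω) - ((cube s D).card : ℝ)) +
        ∑ S ∈ Z, (∏ ω ∈ univ \ S, (-1 : ℝ)) * ((cube s D).card : ℝ) := by
        rw [← Finset.sum_add_distrib]
        refine Finset.sum_congr rfl fun S _ => ?_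
        rw [← Finset.mul_sum]
        ring
    _ = ∑ S ∈ Z, (∏ ω ∈ univ \ S, (-1 : ℝ)) *
          (∑ x ∈ cube s D, ∏ ω ∈ S, nu W b w (vert x.1 x.2 ω) - ((cube s D).card : ℝ)) := by
        rw [← Finset.sum_mul, h4, zero_mul, add_zero]
    _ ≤ ∑ S ∈ Z, ε / Z.card * (D : ℝ) ^ (s + 1) := by
        refine Finset.sum_le_sum fun S _ => (le_abs_self _).trans ?_
        rw [abs_mul, Finset.abs_prod]
        simp only [abs_neg, abs_one, Finset.prod_const_one, one_mul]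
        exact h1 S
    _ = ε * (D : ℝ) ^ (s + 1) := by
        rw [Finset.sum_const, nsmul_eq_mul]
        field_simp

end Pool.Agent.Helper18.TR
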