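import Pool.Agent.Helper18.ED.Final
import Pool.Agent.Helper18.TR.FM
import Pool.Agent.Helper18.TR.FS
import Pool.Agent.Helper18.TR.GB
import Pool.Agent.Helper18.TR.GV
import Pool.Agent.Helper18.TR.LO
import Pool.Agent.Helper18.TR.PR
import Pool.Agent.Helper18.TR.RG
import Pool.Agent.Helper18.TR.SC
import Pool.Agent.Helper18.TR.SI
import Pool.Agent.Helper18.TR.TF
import Pool.Agent.Helper18.TR.UC
import Pool.Agent.Helper18.TR.UN
import Pool.Agent.Helper30.TR.BO
import Pool.Agent.Helper30.TR.CO
import Pool.Agent.Helper32.TR.FL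
import Pool.Agent.Helper96.TR.CR
import Pool.Agent.Helper96.TR.EQ
import Pool.Agent.Helper96.TR.LV
import Pool.Agent.Helper96.TR.SB
import Pool.Agent.Helper96.TR.VL

/-! Final assembly of the TR chapter. -/

namespace Pool.Agent.Helper18.TR

theorem range_ : StRange := pf_Range ED.pf_Mertens
theorem bonf : StBonf := pf_Bonf pf_Fact0 pf_Fact1 pf_Sym pf_Esymm
theorem flMain : StFLmain := pf_FLmain pf_Fact0 pf_Fact1 pf_Sym pf_Esymm range_
/-- the fundamental lemma of the sieve (Brun-Hooley), abstract form -/
theorem fl : StFL := pf_FL bonf flMain pf_Level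
theorem count_ : StCount := pf_Count pf_Equi pf_CRT pf_Local
theorem pr : StPR := pf_PR fl count_ pf_Local pf_Sing pf_Ratio
theorem unu : StUnu := pf_Unu pf_Ucube pr
theorem transfer : StTransfer := pf_Transfer unu pf_GvN
theorem scale : StScale := pf_Scale ED.main pf_Vlow
/-- almost all differences in the classes `1`, `-1` modulo `W` are good -/
theorem goodB : StGoodB :=
  pf_GoodB transfer scale ED.pf_Part ED.pf_Pos ED.pf_Empty ED.pf_Prob

end Pool.Agent.Helper18.TR
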