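import Pool.Agent.Helper18.TR.Defs

/-! Statements of the TR modules. -/

namespace Pool.Agent.Helper18.TR

open Finset Pool.Agent.Helper18.ED

/-! ### Module FS: factorization over the ranges -/

def StFact0 : Prop := ∀ (w b : ℕ) (Q : Finset ℕ) (g : ℕ → ℝ),
  ∑ T ∈ fam0 w b Q, (-1 : ℝ) ^ T.card * ∏ p ∈ T, g p =
    ∏ i ∈ range (w + 1), Yy (b + 2 * i) (Qi w Q i) g

def StFact1 : Prop := ∀ (w b : ℕ) (Q : Finset ℕ) (g : ℕ → ℝ), Even b →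
  ∑ T ∈ fam1 w b Q, (-1 : ℝ) ^ T.card * ∏ p ∈ T, g p =
    - ∑ i ∈ range (w + 1), ee (b + 2 * i + 1) (Qi w Q i) g *
      ∏ j ∈ (range (w + 1)).erase i, Yy (b + 2 * j) (Qi w Q j) g

/-! ### Module SB: Bonferroni inequalities for one range -/

def StSym : Prop := ∀ (u : ℕ) (Q : Finset ℕ) (g : ℕ → ℝ), Even u →
  (∀ p ∈ Q, 0 ≤ g p ∧ g p ≤ 1) →
  ∏ p ∈ Q, (1 - g p) ≤ Yy u Q g ∧ Yy u Q g ≤ ∏ p ∈ Q, (1 - g p) + ee (u + 1) Q g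

def StEsymm : Prop := ∀ (u : ℕ) (Q : Finset ℕ) (g : ℕ → ℝ), (∀ p ∈ Q, 0 ≤ g p) →
  0 ≤ ee u Q g ∧ ee u Q g ≤ (∑ p ∈ Q, g p) ^ u / (u.factorial : ℝ)

/-! ### Module BO: Bonferroni inequalities (Brun-Hooley) -/

def StBonf : Prop := ∀ (w b : ℕ) (Q : Finset ℕ) (g : ℕ → ℝ), Even b →
  (∀ p ∈ Q, 0 ≤ g p ∧ g p ≤ 1) →
  ∑ T ∈ fam0 w b Q ∪ fam1 w b Q, (-1 : ℝ) ^ T.card * ∏ p ∈ T, g p ≤ ∏ p ∈ Q, (1 - g p) ∧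
  ∏ p ∈ Q, (1 - g p) ≤ ∑ T ∈ fam0 w b Q, (-1 : ℝ) ^ T.card * ∏ p ∈ T, g p

/-! ### Module FM: the main term -/

def StRange : Prop := ∃ C : ℝ, 1 ≤ C ∧ ∀ w : ℕ, ∀ Q : Finset ℕ, (∀ p ∈ Q, p.Prime ∧ p ≤ w) →
  ∀ i, ∑ p ∈ Qi w Q i, 1 / (p : ℝ) ≤ C

def StFLmain : Prop := ∀ (κ ε : ℝ), 0 < κ → 0 < ε → ∃ b : ℕ, Even b ∧ ∀ w : ℕ,
  ∀ Q : Finset ℕ, (∀ p ∈ Q, p.Prime ∧ p ≤ w) → ∀ g : ℕ → ℝ,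
  (∀ p ∈ Q, 0 ≤ g p ∧ g p ≤ κ / p ∧ g p ≤ 1 / 2) →
  ∑ T ∈ fam0 w b Q, (-1 : ℝ) ^ T.card * ∏ p ∈ T, g p ≤ (1 + ε) * ∏ p ∈ Q, (1 - g p) ∧
  (1 - ε) * ∏ p ∈ Q, (1 - g p) ≤
    ∑ T ∈ fam0 w b Q ∪ fam1 w b Q, (-1 : ℝ) ^ T.card * ∏ p ∈ T, g p

/-! ### Module LV: the level -/

def StLevel : Prop := ∀ b : ℕ, ∃ B : ℕ, ∀ w : ℕ, 1 ≤ w → ∀ Q : Finset ℕ,
  (∀ p ∈ Q, p.Prime ∧ p ≤ w) → ∀ T ∈ fam0 w b Q ∪ fam1 w b Q, ∏ p ∈ T, p ≤ w ^ B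

/-! ### Module FL: fundamental lemma of the sieve -/

def StFL : Prop := ∀ (κ ε : ℝ), 0 < κ → 0 < ε → ∃ B : ℕ, ∀ w : ℕ, 2 ≤ w →
  ∀ Q : Finset ℕ, (∀ p ∈ Q, p.Prime ∧ p ≤ w) → ∀ g : ℕ → ℝ,
  (∀ p ∈ Q, 0 ≤ g p ∧ g p ≤ κ / p ∧ g p ≤ 1 / 2) →
  ∀ (α : Type) (A : Finset α) (E : ℕ → α → Prop) [∀ p, DecidablePred (E p)] (N R : ℝ), 0 ≤ N →
  0 ≤ R →
  (∀ T ⊆ Q, ∏ p ∈ T, p ≤ w ^ B →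
    |((A.filter (fun a => ∀ p ∈ T, E p a)).card : ℝ) - N * ∏ p ∈ T, g p| ≤ R) →
  |((A.filter (fun a => ∀ p ∈ Q, ¬ E p a)).card : ℝ) - N * ∏ p ∈ Q, (1 - g p)| ≤
    ε * (N * ∏ p ∈ Q, (1 - g p)) + (w : ℝ) ^ B * R

/-! ### Module EQ: equidistribution of cubes in residue classes -/

def StEqui : Prop := ∀ s : ℕ, ∃ C : ℝ, 0 ≤ C ∧ ∀ D q : ℕ, 1 ≤ q → q ≤ D →
  ∀ a ∈ box s q, |(((cube s D).filter (fun x => (∀ i, (q : ℤ) ∣ x.1 i - a.1 i) ∧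
      (q : ℤ) ∣ x.2 - a.2)).card : ℝ) - ((cube s D).card : ℝ) / (q : ℝ) ^ (s + 1)| ≤
    C * ((D : ℝ) / q) ^ s

/-! ### Module CR: Chinese remainder theorem for boxes -/

def StCRT : Prop := ∀ (s W b : ℕ) (S : Finset (Finset (Fin s))) (T : Finset ℕ),
  (∀ p ∈ T, p.Prime) →
  ((box s (∏ p ∈ T, p)).filter (fun x => ∀ p ∈ T, hit W b S p x)).card =
    ∏ p ∈ T, ((box s p).filter (hit W b S p)).card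

/-! ### Module LO: local densities -/

def StLocal : Prop := ∀ (s W b : ℕ) (S : Finset (Finset (Fin s))) (p : ℕ), p.Prime → ¬ p ∣ W →
  gg W b S p ≤ (S.card : ℝ) / p ∧
    (S.card : ℝ) / p - (S.card : ℝ) ^ 2 / (p : ℝ) ^ 2 ≤ gg W b S p

/-! ### Module CO: counting cubes -/

def StCount : Prop := ∀ s : ℕ, ∃ C : ℝ, 0 ≤ C ∧ ∀ (D W b : ℕ) (S : Finset (Finset (Fin s)))
  (T : Finset ℕ), (∀ p ∈ T, p.Prime ∧ ¬ p ∣ W) → ∏ p ∈ T, p ≤ D →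
  |(((cube s D).filter (fun x => ∀ p ∈ T, hit W b S p x)).card : ℝ) -
    ((cube s D).card : ℝ) * ∏ p ∈ T, gg W b S p| ≤ C * (S.card : ℝ) ^ T.card * (D : ℝ) ^ s

/-! ### Module SI: singular products -/

def StSing : Prop := ∀ (K ε : ℝ), 0 ≤ K → 0 < ε → ∃ w₀ : ℕ, ∀ Q : Finset ℕ, (∀ p ∈ Q, w₀ < p) →
  ∀ t : ℕ → ℝ, (∀ p ∈ Q, |t p - 1| ≤ K / (p : ℝ) ^ 2) → |∏ p ∈ Q, t p - 1| ≤ ε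

/-- the ratio of the local factors -/
def StRatio : Prop := ∀ k : ℕ, ∃ K : ℝ, 0 ≤ K ∧ ∀ (p : ℕ) (g : ℝ), 2 * k ≤ p → 2 ≤ p →
  g ≤ (k : ℝ) / p → (k : ℝ) / p - (k : ℝ) ^ 2 / (p : ℝ) ^ 2 ≤ g →
  |(1 - g) / (1 - 1 / (p : ℝ)) ^ k - 1| ≤ K / (p : ℝ) ^ 2

/-! ### Module PR: pseudorandomness -/

def StPR : Prop := ∀ (s : ℕ) (ε : ℝ), 0 < ε → ∃ w₀ A D₀ : ℕ, ∀ W b : ℕ,
  (∀ p, p.Prime → p ≤ w₀ → p ∣ W) → ∀ D w : ℕ, D₀ ≤ D → 2 ≤ w → w ^ A ≤ D →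
  ∀ S : Finset (Finset (Fin s)),
  |∑ x ∈ cube s D, ∏ ω ∈ S, nu W b w (vert x.1 x.2 ω) - ((cube s D).card : ℝ)| ≤
    ε * (D : ℝ) ^ (s + 1)

/-! ### Module UC: Gowers sums and cubes -/

def StUcube : Prop := ∀ (s D : ℕ) (θ : ℤ → ℝ), (∀ d, ¬ (0 ≤ d ∧ d < (D : ℤ)) → θ d = 0) →
  U D s θ = ∑ x ∈ cube s D, ∏ ω : Finset (Fin s), θ (vert x.1 x.2 ω)

/-! ### Module UN: the Gowers norm of `nu - 1` -/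

def StUnu : Prop := ∀ (s : ℕ) (ε : ℝ), 0 < ε → ∃ w₀ A D₀ : ℕ, ∀ W b : ℕ,
  (∀ p, p.Prime → p ≤ w₀ → p ∣ W) → ∀ D w : ℕ, D₀ ≤ D → 2 ≤ w → w ^ A ≤ D →
  U D s (th W b w D) ≤ ε * (D : ℝ) ^ (s + 1)

/-! ### Module GV: generalized von Neumann theorem -/

def StGvN : Prop := ∀ μ : (ℕ → ℝ) → ℝ, LogMean μ → ∀ (r D q : ℕ),
  ∀ g : ℕ → ℤ → ℝ, (∀ j n, |g j n| ≤ 1) → ∀ θ : ℤ → ℝ,
  (∀ d, ¬ (0 ≤ d ∧ d < (D : ℤ)) → θ d = 0) →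
  |∑ d ∈ Ico (0 : ℤ) D, θ d * μ (fun n => ∏ j ∈ range (r + 1), g j ((n : ℤ) + j * (q * d)))| ^
      (2 ^ (r + 1)) ≤
    (2 * (D : ℝ)) ^ (2 ^ (r + 1) - (r + 2)) * U D (r + 1) θ

/-! ### Module TF: transfer -/

def StTransfer : Prop := ∀ (H : ℕ) (ε : ℝ), 1 ≤ H → 0 < ε → ∃ w₀ A D₀ : ℕ,
  ∀ μ : (ℕ → ℝ) → ℝ, LogMean μ → ∀ (f : ℕ → ℤˣ) (W b : ℕ),
  (∀ p, p.Prime → p ≤ w₀ → p ∣ W) → ∀ D w : ℕ, D₀ ≤ D → 2 ≤ w → w ^ A ≤ D →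
  ∀ x : Fin H → ℤˣ,
  |∑ d ∈ range D, (nu W b w d - 1) * prob μ {n | ED.W f (W * d + b) H n = x}| ≤ ε * D

/-! ### Module VL: lower bound for `V` -/

def StVlow : Prop := ∃ c : ℝ, 0 < c ∧ ∀ W w : ℕ, 2 ≤ w → c / Real.log w ≤ V W w

/-! ### Module SC: choice of the scale -/

def StScale : Prop := ∀ P : Set ℕ → ℝ, LogProb P → ∀ f : ℕ → ℤˣ, CM f →
  ∀ (H W : ℕ) (Bs : Finset ℕ) (ε : ℝ), 1 ≤ H → 1 ≤ W → (∀ b ∈ Bs, Nat.Coprime b W) → 0 < ε →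
  ∀ A D₁ : ℕ, ∃ w D : ℕ, 2 ≤ w ∧ D₁ ≤ D ∧ w ^ A ≤ D ∧ ∀ b ∈ Bs,
    ∑ d ∈ range D, nu W b w d * TV P f (W * d + b) H 1 ≤ ε * D

/-! ### The theorem (module GB) -/

/-- bounded correlation sums: almost all differences `W d + b`, `b ∈ {1, W - 1}`, are good -/
def StGoodB : Prop := ∀ (h : ℕ) (C : ℤ), (∀ N : ℕ, |∑ n ∈ Icc 1 N,
    (-1 : ℤ) ^ (ArithmeticFunction.cardFactors n) *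
    (-1 : ℤ) ^ (ArithmeticFunction.cardFactors (n + h))| ≤ C) →
  ∀ μ : (ℕ → ℝ) → ℝ, LogMean μ → ∀ (J W₀ : ℕ) (ε : ℝ), 1 ≤ W₀ → 0 < ε →
  ∃ W : ℕ, 2 ≤ W ∧ W₀ ∣ W ∧ ∀ E₀ : ℕ, ∃ E ≥ E₀, ∀ b ∈ ({1, W - 1} : Finset ℕ),
  ∑ d ∈ range E, prob μ {n | ∃ a c, a ≤ c ∧ c ≤ J ∧
    2 * C < |∑ j ∈ Ico a c, (-1 : ℤ) ^ (ArithmeticFunction.cardFactors (n + j * (W * d + b))) *
      (-1 : ℤ) ^ (ArithmeticFunction.cardFactors (n + (j + h) * (W * d + b)))|} ≤ ε * E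

end Pool.Agent.Helper18.TR
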