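import Pool.Agent.Helper18.ED.St

/-!
# From rough differences to all differences: definitions
-/

namespace Pool.Agent.Helper18.TR

open Finset Pool.Agent.Helper18.ED

/-! ### The fundamental lemma -/

/-- index of the range of the prime `p`: `p ^ (2 ^ i) ≤ w < p ^ (2 ^ (i + 1))` -/
def idx (w p : ℕ) : ℕ := Nat.log 2 (Nat.log p w)

/-- the elements of `Q` in the range `i` -/
def Qi (w : ℕ) (Q : Finset ℕ) (i : ℕ) : Finset ℕ := Q.filter (fun p => idx w p = i)

open Classical in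
/-- at most `b + 2 i` primes of the range `i` -/
noncomputable def fam0 (w b : ℕ) (Q : Finset ℕ) : Finset (Finset ℕ) :=
  Q.powerset.filter (fun T => ∀ i ∈ range (w + 1), (Qi w T i).card ≤ b + 2 * i)

open Classical in
/-- exactly `b + 2 i + 1` primes of one range `i`, at most `b + 2 j` of every other range `j` -/
noncomputable def fam1 (w b : ℕ) (Q : Finset ℕ) : Finset (Finset ℕ) :=
  Q.powerset.filter (fun T => ∃ i ∈ range (w + 1), (Qi w T i).card = b + 2 * i + 1 ∧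
    ∀ j ∈ range (w + 1), j ≠ i → (Qi w T j).card ≤ b + 2 * j)

/-- truncated product over a set -/
noncomputable def Yy (u : ℕ) (Q : Finset ℕ) (g : ℕ → ℝ) : ℝ :=
  ∑ T ∈ Q.powerset.filter (fun T => T.card ≤ u), (-1) ^ T.card * ∏ p ∈ T, g p

/-- elementary symmetric function -/
noncomputable def ee (u : ℕ) (Q : Finset ℕ) (g : ℕ → ℝ) : ℝ := ∑ T ∈ Q.powersetCard u, ∏ p ∈ T, g p

/-! ### Cubes -/

/-- the vertex `ω` of the cube with base `d` and edges `h` -/
def vert {s : ℕ} (h : Fin s → ℤ) (d : ℤ) (ω : Finset (Fin s)) : ℤ := d + ∑ i ∈ ω, h i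

/-- the cubes of dimension `s` all of whose vertices are in `[0, D)` -/
noncomputable def cube (s D : ℕ) : Finset ((Fin s → ℤ) × ℤ) :=
  (Fintype.piFinset (fun _ : Fin s => Ioo (-(D : ℤ)) D) ×ˢ Ico (0 : ℤ) D).filter
    (fun x => ∀ ω : Finset (Fin s), 0 ≤ vert x.1 x.2 ω ∧ vert x.1 x.2 ω < D)

/-- the box `[0, q)^(s+1)` -/
noncomputable def box (s q : ℕ) : Finset ((Fin s → ℤ) × ℤ) :=
  Fintype.piFinset (fun _ : Fin s => Ico (0 : ℤ) q) ×ˢ Ico (0 : ℤ) q

/-- some vertex `v` in `S` of the cube has `p ∣ W v + b` -/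
def hit {s : ℕ} (W b : ℕ) (S : Finset (Finset (Fin s))) (p : ℕ) (x : (Fin s → ℤ) × ℤ) : Prop :=
  ∃ ω ∈ S, (p : ℤ) ∣ W * vert x.1 x.2 ω + b

instance {s : ℕ} (W b : ℕ) (S : Finset (Finset (Fin s))) (p : ℕ) :
    DecidablePred (hit W b S p) := fun x => by unfold hit; infer_instance

/-- local density -/
noncomputable def gg {s : ℕ} (W b : ℕ) (S : Finset (Finset (Fin s))) (p : ℕ) : ℝ :=
  (((box s p).filter (hit W b S p)).card : ℝ) / (p : ℝ) ^ (s + 1)

/-- unnormalised Gowers sum of a function supported in `[0, D)` -/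
noncomputable def U (D : ℕ) : ℕ → (ℤ → ℝ) → ℝ
  | 0, θ => ∑ d ∈ Ico (0 : ℤ) D, θ d
  | s + 1, θ => ∑ h ∈ Ioo (-(D : ℤ)) D, U D s (fun d => θ d * θ (d + h))

/-! ### Rough numbers in a progression -/

/-- the primes up to `w` not dividing `W` -/
def PW (W w : ℕ) : Finset ℕ := (Icc 1 w).filter (fun p => p.Prime ∧ ¬ p ∣ W)

noncomputable def V (W w : ℕ) : ℝ := ∏ p ∈ PW W w, (1 - 1 / (p : ℝ))

/-- normalised indicator function of the `d` such that `W d + b` has no prime factor in `PW` -/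
noncomputable def nu (W b w : ℕ) (d : ℤ) : ℝ :=
  if ∀ p ∈ PW W w, ¬ (p : ℤ) ∣ W * d + b then 1 / V W w else 0

/-- `nu - 1` cut off to `[0, D)` -/
noncomputable def th (W b w D : ℕ) (d : ℤ) : ℝ :=
  if 0 ≤ d ∧ d < D then nu W b w d - 1 else 0

end Pool.Agent.Helper18.TR
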